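import Pool.Agent.L7h70.SB.Stm

/-! Project SB: the determinant of a similarity. -/

set_option autoImplicit false

open Set Filter Topology MeasureTheory
open scoped Real ContDiff

noncomputable section

namespace Pool.Agent.L7h70.SB

theorem det_eq (A : ℂ →L[ℝ] ℂ) :
    A.det = (A 1).re * (A Complex.I).im - (A Complex.I).re * (A 1).im := by
  have h1 : A.det = LinearMap.det (A : ℂ →ₗ[ℝ] ℂ) := rfl
  rw [h1, ← LinearMap.det_toMatrix Complex.basisOneI, Matrix.det_fin_two]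
  simp [LinearMap.toMatrix_apply, Complex.coe_basisOneI]

theorem sim (A : ℂ →L[ℝ] ℂ) (h : ∀ v, ‖A v‖ = ‖A 1‖ * ‖v‖) :
    ‖A Complex.I‖ = ‖A 1‖ ∧ (A 1).re * (A Complex.I).re + (A 1).im * (A Complex.I).im = 0 := by
  have h1 : ‖A Complex.I‖ = ‖A 1‖ := by rw [h]; simp
  refine ⟨h1, ?_⟩
  have h2 := h (1 + Complex.I)
  have h3 : ‖A (1 + Complex.I)‖ ^ 2 = ‖A 1‖ ^ 2 * ‖(1 : ℂ) + Complex.I‖ ^ 2 := by rw [h2]; ring
  have h4 : ‖(1 : ℂ) + Complex.I‖ ^ 2 = 2 := by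
    rw [Complex.sq_norm, Complex.normSq_apply]; simp; norm_num
  rw [h4, map_add, Complex.sq_norm, Complex.sq_norm, Complex.normSq_apply, Complex.normSq_apply] at h3
  have h5 : ‖A Complex.I‖ ^ 2 = ‖A 1‖ ^ 2 := by rw [h1]
  rw [Complex.sq_norm, Complex.sq_norm, Complex.normSq_apply, Complex.normSq_apply] at h5
  simp only [Complex.add_re, Complex.add_im] at h3
  nlinarith

theorem det_sim (A : ℂ →L[ℝ] ℂ) (h : ∀ v, ‖A v‖ = ‖A 1‖ * ‖v‖) : |A.det| = ‖A 1‖ ^ 2 := by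
  obtain ⟨h1, h2⟩ := sim A h
  have h5 : ‖A Complex.I‖ ^ 2 = ‖A 1‖ ^ 2 := by rw [h1]
  have h6 : A.det ^ 2 = (‖A 1‖ ^ 2) ^ 2 := by
    have e1 : ‖A 1‖ ^ 2 = (A 1).re ^ 2 + (A 1).im ^ 2 := by
      rw [Complex.sq_norm, Complex.normSq_apply]; ring
    have e2 : ‖A Complex.I‖ ^ 2 = (A Complex.I).re ^ 2 + (A Complex.I).im ^ 2 := by
      rw [Complex.sq_norm, Complex.normSq_apply]; ring
    rw [det_eq]
    have e3 : (‖A 1‖ ^ 2) ^ 2 = ‖A 1‖ ^ 2 * ‖A Complex.I‖ ^ 2 := by rw [h5]; ring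
    rw [e3, e1, e2]
    nlinarith [h2]
  have h7 := abs_eq_abs.2 (sq_eq_sq_iff_eq_or_eq_neg.1 h6)
  rw [h7, abs_of_nonneg (sq_nonneg _)]

end Pool.Agent.L7h70.SB
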