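import Pool.Agent.L7h70.SB.Stm2
import Pool.Agent.L7h70.SB.Det

/-!
# Project SB (round bands): statements, part five (the C¹ topology)
-/

set_option autoImplicit false

open Set Filter Topology MeasureTheory
open scoped Real ContDiff UniformConvergence
open Pool.Agent.Y262.QE Pool.Agent.Y264.QR

noncomputable section

namespace Pool.Agent.L7h70.SB

/-- the continuously differentiable conformal factors for which the unit circle of the chart `i` remains a
closed geodesic with constant speed: the differential vanishes on the circle -/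
def C1sp {M : Type} [TopologicalSpace M] (D : Data M) (i : Fin D.N) : Type :=
  {φ : C(M, ℝ) // D.C1 φ ∧ ∀ z : ℂ, ‖z‖ = 1 → fderiv ℝ (fun y => φ (D.ψ i y)) z = 0}

/-- the `C¹` topology: uniform convergence of the functions and of their gradients -/
instance {M : Type} [TopologicalSpace M] (D : Data M) (i : Fin D.N) :
    TopologicalSpace (C1sp D i) :=
  TopologicalSpace.induced (fun φ => ((φ.1 : C(M, ℝ)), UniformFun.ofFun (D.gr φ.1)))
    (inferInstance : TopologicalSpace (C(M, ℝ) × (M →ᵤ ℂ)))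

/-- `DEN1` (round bands are dense in the `C¹` topology). Proof: `b` = the value of `φ ∘ ψ_i` on the unit circle
(constant, since the differential vanishes there), `u z = 2 log (a / cosh (log |z|)) - 2 w z + b - φ (ψ_i z)`
is `C¹` near the unit circle, `u = 0`, `du = 0` on it. With `t = log |z|`: for every `ρ > 0` one has
`‖du‖ ≤ ρ` and `|u| ≤ 2 ρ |t|` for small `|t|` (mean value along the radii), so `g = χ (t / κ) u` (as in
`COP`) satisfies `|g| ≤ C ρ κ`, `‖dg‖ ≤ C ρ`. `ψ = φ + g ∘ φ_i`, extended by `φ`; the round band has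
`c = a² exp b`. On the compact annulus `‖grd (A z) P‖ ≤ C ‖P‖`. For the extension by zero of a function of a chart see
`Pool.Agent.L7h70.SB.Tr` (`ext`, `ext_cont`, `ext_C1`, `gr_zero`). -/
def S_DEN1 : Prop :=
  ∀ (M : Type) [MetricSpace M] [CompactSpace M] [MeasurableSpace M] [BorelSpace M] (μ : Measure M)
    (D : Data M), D.IsSurf μ → ∀ (i : Fin D.N) (a η : ℝ) (w : ℂ → ℝ), IsCollar D i a η w →
    ∀ φ : C(M, ℝ), D.C1 φ → (∀ z : ℂ, ‖z‖ = 1 → fderiv ℝ (fun y => φ (D.ψ i y)) z = 0) →
    ∀ ε : ℝ, 0 < ε → ∃ ψ : C(M, ℝ), D.C1 ψ ∧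
      (∀ z : ℂ, ‖z‖ = 1 → fderiv ℝ (fun y => ψ (D.ψ i y)) z = 0) ∧ HasBand D ψ ∧
      dist ψ φ < ε ∧ ∀ x, ‖D.gr ψ x - D.gr φ x‖ < ε

/-- `BAI1` (the space is a Baire space). Proof: the map to the complete uniform space
`C(M, ℝ) × (M →ᵤ ℂ)`, whose uniformity is countably generated, has a closed range: if `φ_n → φ` and
`gr φ_n → G` uniformly, then in every chart `j` the differentials `d (φ_n ∘ ψ_j)` converge locally
uniformly (`tGr`: `‖gc j F x‖ = ‖gr F x‖` on `U j`; `‖P‖ ≤ ‖A‖ * ‖grd A P‖ * const`), so `φ` is `C¹`, its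
gradient is `G`, and the condition on the unit circle passes to the limit. -/
def S_BAI1 : Prop :=
  ∀ (M : Type) [MetricSpace M] [CompactSpace M] [MeasurableSpace M] [BorelSpace M] (μ : Measure M)
    (D : Data M), D.IsSurf μ → ∀ (i : Fin D.N), (∀ z : ℂ, ‖z‖ = 1 → z ∈ D.T i) →
    BaireSpace (C1sp D i)

end Pool.Agent.L7h70.SB
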