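import Pool.Agent.L7h70.SB.Stm
import Pool.Agent.L7h70.SB.Det
import Pool.Agent.Y708.QE.Gr

/-! Project SB: transplantation of planar functions. -/

set_option autoImplicit false

open Set Filter Topology MeasureTheory
open scoped Real ContDiff
open Pool.Agent.Y262.QE Pool.Agent.Y264.QR

noncomputable section

namespace Pool.Agent.L7h70.SB

/-! ### The plane -/

theorem cont_mul {O : Set ℂ} (hO : IsOpen O) {f g : ℂ → ℝ} (hf : Continuous f) (hs : tsupport f ⊆ O)
    (hg : ContinuousOn g O) : Continuous fun z => f z * g z := by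
  rw [continuous_iff_continuousAt]
  intro z
  by_cases hz : z ∈ tsupport f
  · exact hf.continuousAt.mul (hg.continuousAt (hO.mem_nhds (hs hz)))
  · have h1 : (fun z => f z * g z) =ᶠ[𝓝 z] fun _ => 0 := by
      filter_upwards [notMem_tsupport_iff_eventuallyEq.1 hz] with y hy
      rw [hy]
      simp
    exact continuousAt_const.congr h1.symm

theorem integrable_mul {O : Set ℂ} (hO : IsOpen O) {f g : ℂ → ℝ} (hf : Continuous f)
    (hc : HasCompactSupport f) (hs : tsupport f ⊆ O) (hg : ContinuousOn g O) :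
    Integrable fun z => f z * g z :=
  (cont_mul hO hf hs hg).integrable_of_hasCompactSupport hc.mul_right

theorem tsupport_fd {W : ℂ → ℝ} (v : ℂ) : tsupport (fun z => fderiv ℝ W z v) ⊆ tsupport W := by
  apply closure_minimal _ (isClosed_tsupport _)
  intro z hz
  by_contra h
  apply hz
  have h1 : W =ᶠ[𝓝 z] fun _ => (0 : ℝ) := notMem_tsupport_iff_eventuallyEq.1 h
  show fderiv ℝ W z v = 0
  rw [h1.fderiv_eq]
  simp

theorem compact_fd {W : ℂ → ℝ} (hc : HasCompactSupport W) (v : ℂ) :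
    HasCompactSupport fun z => fderiv ℝ W z v :=
  hc.of_isClosed_subset (isClosed_tsupport _) (tsupport_fd v)

theorem smooth_fd {W : ℂ → ℝ} (hW : ContDiff ℝ ∞ W) (v : ℂ) :
    ContDiff ℝ ∞ fun z => fderiv ℝ W z v :=
  (hW.fderiv_right (m := ∞) (by simp)).clm_apply contDiff_const

theorem lap_cont {W : ℂ → ℝ} (hW : ContDiff ℝ ∞ W) : Continuous (lap W) :=
  (smooth_fd (smooth_fd hW 1) 1).continuous.add
    (smooth_fd (smooth_fd hW Complex.I) Complex.I).continuous

theorem lap_zero {W : ℂ → ℝ} {z : ℂ} (hz : z ∉ tsupport W) : lap W z = 0 := by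
  have h1 : ∀ v : ℂ, fderiv ℝ (fun y => fderiv ℝ W y v) z v = 0 := by
    intro v
    have h2 : z ∉ tsupport (fun z => fderiv ℝ (fun y => fderiv ℝ W y v) z v) := fun h =>
      hz (tsupport_fd v (tsupport_fd v h))
    exact image_eq_zero_of_notMem_tsupport (f := fun z => fderiv ℝ (fun y => fderiv ℝ W y v) z v) h2
  unfold lap
  rw [h1, h1, add_zero]

/-- integration by parts -/
theorem ibp {O : Set ℂ} (hO : IsOpen O) {W g : ℂ → ℝ} (hW : ContDiff ℝ ∞ W)
    (hc : HasCompactSupport W) (hs : tsupport W ⊆ O) (hg : ContDiffOn ℝ 1 g O) :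
    ∫ z in O, (fderiv ℝ W z 1 * fderiv ℝ g z 1 +
      fderiv ℝ W z Complex.I * fderiv ℝ g z Complex.I) = ∫ z in O, -lap W z * g z := by
  have hgd : ∀ z ∈ O, DifferentiableAt ℝ g z := fun z hz =>
    (hg.contDiffAt (hO.mem_nhds hz)).differentiableAt one_ne_zero
  have hgf : ∀ v : ℂ, ContinuousOn (fun z => fderiv ℝ g z v) O := fun v =>
    (hg.continuousOn_fderiv_of_isOpen hO le_rfl).clm_apply continuousOn_const
  have key : ∀ v : ℂ, Integrable (fun z => fderiv ℝ W z v * fderiv ℝ g z v) ∧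
      Integrable (fun z => fderiv ℝ (fun y => fderiv ℝ W y v) z v * g z) ∧
      ∫ z, fderiv ℝ W z v * fderiv ℝ g z v =
        -∫ z, fderiv ℝ (fun y => fderiv ℝ W y v) z v * g z := by
    intro v
    have h1 : Integrable (fun z => fderiv ℝ W z v * fderiv ℝ g z v) :=
      integrable_mul hO (smooth_fd hW v).continuous (compact_fd hc v) ((tsupport_fd v).trans hs) (hgf v)
    have h2 : Integrable (fun z => fderiv ℝ (fun y => fderiv ℝ W y v) z v * g z) :=
      integrable_mul hO (smooth_fd (smooth_fd hW v) v).continuous (compact_fd (compact_fd hc v) v)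
        ((tsupport_fd v).trans ((tsupport_fd v).trans hs)) hg.continuousOn
    refine ⟨h1, h2, ?_⟩
    exact integral_mul_fderiv_eq_neg_fderiv_mul_of_integrable h2 h1
      (integrable_mul hO (smooth_fd hW v).continuous (compact_fd hc v) ((tsupport_fd v).trans hs)
        hg.continuousOn)
      (fun x _ => ((smooth_fd hW v).differentiable (by simp)).differentiableAt)
      (fun x hx => hgd x (hs (tsupport_fd v hx)))
  have e1 : ∫ z in O, (fderiv ℝ W z 1 * fderiv ℝ g z 1 +
      fderiv ℝ W z Complex.I * fderiv ℝ g z Complex.I) =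
      ∫ z, (fderiv ℝ W z 1 * fderiv ℝ g z 1 + fderiv ℝ W z Complex.I * fderiv ℝ g z Complex.I) := by
    apply setIntegral_eq_integral_of_forall_compl_eq_zero
    intro z hz
    have h3 : ∀ v, fderiv ℝ W z v = 0 := fun v =>
      image_eq_zero_of_notMem_tsupport (f := fun z => fderiv ℝ W z v)
        fun h => hz (hs (tsupport_fd v h))
    rw [h3, h3]
    ring
  have e2 : ∫ z in O, -lap W z * g z = ∫ z, -lap W z * g z := by
    apply setIntegral_eq_integral_of_forall_compl_eq_zero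
    intro z hz
    rw [lap_zero fun h => hz (hs h)]
    ring
  rw [e1, e2, integral_add (key 1).1 (key Complex.I).1, (key 1).2.2, (key Complex.I).2.2,
    ← neg_add, ← integral_add (key 1).2.1 (key Complex.I).2.1, ← integral_neg]
  congr 1
  funext z
  unfold lap
  ring

/-! ### Isothermal frames -/

theorem orth_rows {p q : ℂ} (h1 : ‖q‖ = ‖p‖) (h2 : p.re * q.re + p.im * q.im = 0) :
    p.re ^ 2 + q.re ^ 2 = ‖p‖ ^ 2 ∧ p.im ^ 2 + q.im ^ 2 = ‖p‖ ^ 2 ∧
      p.re * p.im + q.re * q.im = 0 := by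
  have e1 : ‖p‖ ^ 2 = p.re ^ 2 + p.im ^ 2 := by rw [Complex.sq_norm, Complex.normSq_apply]; ring
  have e2 : ‖q‖ ^ 2 = q.re ^ 2 + q.im ^ 2 := by rw [Complex.sq_norm, Complex.normSq_apply]; ring
  rw [h1, e1] at e2
  by_cases hp : p.re ^ 2 + p.im ^ 2 = 0
  · have h3 : p.re = 0 := by nlinarith [sq_nonneg p.re, sq_nonneg p.im]
    have h4 : p.im = 0 := by nlinarith [sq_nonneg p.re, sq_nonneg p.im]
    have h5 : q.re = 0 := by nlinarith [sq_nonneg q.re, sq_nonneg q.im]
    have h6 : q.im = 0 := by nlinarith [sq_nonneg q.re, sq_nonneg q.im]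
    rw [e1, h3, h4, h5, h6]
    norm_num
  · have h3 : q.re ^ 2 = p.im ^ 2 := by
      apply mul_left_cancel₀ hp
      have h4 : (p.re * q.re) ^ 2 = (p.im * q.im) ^ 2 := by
        have : p.re * q.re = -(p.im * q.im) := by linarith
        rw [this]; ring
      nlinarith
    have h4 : q.im ^ 2 = p.re ^ 2 := by linarith
    refine ⟨by rw [e1, h3], by rw [e1, h4]; ring, ?_⟩
    have h5 : (p.re * p.im + q.re * q.im) * (p.re * p.im + q.re * q.im) = 0 := by
      have h6 : (p.re * p.im + q.re * q.im) * (p.re * p.im + q.re * q.im) =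
          p.re ^ 2 * p.im ^ 2 + q.re ^ 2 * q.im ^ 2 + 2 * (p.re * q.re) * (p.im * q.im) := by ring
      have h7 : p.im * q.im = -(p.re * q.re) := by linarith
      rw [h6, h7, h4]
      have h8 : (p.re * q.re) ^ 2 = p.re ^ 2 * q.re ^ 2 := by ring
      nlinarith
    exact mul_self_eq_zero.1 h5

theorem clm_re_im (P : ℂ →L[ℝ] ℝ) (z : ℂ) : P z = z.re * P 1 + z.im * P Complex.I := by
  have h1 : z = z.re • (1 : ℂ) + z.im • Complex.I := by
    apply Complex.ext <;> simp
  conv_lhs => rw [h1]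
  rw [map_add, map_smul, map_smul, smul_eq_mul, smul_eq_mul]

theorem inner_grd {A : ℂ →L[ℝ] ℂ} (hA : A.det ≠ 0) (h : ∀ v, ‖A v‖ = ‖A 1‖ * ‖v‖)
    (P Q : ℂ →L[ℝ] ℝ) : inner ℝ (grd A P) (grd A Q) * |A.det| =
      P 1 * Q 1 + P Complex.I * Q Complex.I := by
  have hd := det_sim A h
  have hpos : 0 < ‖A 1‖ := by
    rcases (norm_nonneg (A 1)).eq_or_lt with h0 | h0
    · exfalso
      apply hA
      have : |A.det| = 0 := by rw [hd, ← h0]; norm_num
      exact abs_eq_zero.1 this
    · exact h0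
  have hB : ∀ v, ‖A.inverse v‖ = ‖A 1‖⁻¹ * ‖v‖ := by
    intro v
    have h1 := h (A.inverse v)
    rw [Pool.Agent.Y708.QE.inv_apply hA] at h1
    rw [h1, inv_mul_cancel_left₀ hpos.ne']
  have hB1 : ‖A.inverse 1‖ = ‖A 1‖⁻¹ := by rw [hB]; simp
  obtain ⟨h3, h4⟩ := sim A.inverse fun v => by rw [hB v, hB1]
  obtain ⟨h5, h6, h7⟩ := orth_rows h3 h4
  have h8 : inner ℝ (grd A P) (grd A Q) = P (A.inverse 1) * Q (A.inverse 1) +
      P (A.inverse Complex.I) * Q (A.inverse Complex.I) := by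
    rw [Complex.inner]
    simp [grd]
    ring
  rw [h8, clm_re_im P (A.inverse 1), clm_re_im Q (A.inverse 1), clm_re_im P (A.inverse Complex.I),
    clm_re_im Q (A.inverse Complex.I), hd]
  rw [hB1] at h5 h6
  set a := (A.inverse 1).re
  set b := (A.inverse 1).im
  set c := (A.inverse Complex.I).re
  set d := (A.inverse Complex.I).im
  have h9 : (a * P 1 + b * P Complex.I) * (a * Q 1 + b * Q Complex.I) +
      (c * P 1 + d * P Complex.I) * (c * Q 1 + d * Q Complex.I) =
      (a ^ 2 + c ^ 2) * (P 1 * Q 1) + (b ^ 2 + d ^ 2) * (P Complex.I * Q Complex.I) +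
        (a * b + c * d) * (P 1 * Q Complex.I + P Complex.I * Q 1) := by ring
  rw [h9, h5, h6, h7]
  field_simp
  ring

section

variable {M : Type} [MetricSpace M] [CompactSpace M] [MeasurableSpace M] [BorelSpace M]
  {μ : Measure M} {D : Data M}

open Classical in
/-- extension by zero of a function of a chart -/
def ext (D : Data M) (i : Fin D.N) (g : ℂ → ℝ) (x : M) : ℝ := if x ∈ D.U i then g (D.φ i x) else 0

omit [CompactSpace M] [BorelSpace M] in
theorem ext_near (hD : D.IsSurf μ) (i : Fin D.N) {K : Set ℂ} (hK : IsCompact K) (hKT : K ⊆ D.T i)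
    {g : ℂ → ℝ} (hg : ∀ z, z ∉ K → g z = 0) {x : M} (hx : x ∉ D.U i) :
    ∀ᶠ y in 𝓝 x, ext D i g y = 0 := by
  have h1 : IsCompact (D.ψ i '' K) := hK.image_of_continuousOn ((hD.contψ i).mono hKT)
  have h2 : x ∈ (D.ψ i '' K)ᶜ := by
    rintro ⟨z, hz, rfl⟩
    obtain ⟨y, hy, rfl⟩ := hKT hz
    rw [hD.left i y hy] at hx
    exact hx hy
  filter_upwards [h1.isClosed.isOpen_compl.mem_nhds h2] with y hy
  unfold ext
  split_ifs with h
  · apply hg
    intro hyK
    exact hy ⟨D.φ i y, hyK, hD.left i y h⟩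
  · rfl

omit [CompactSpace M] [BorelSpace M] in
theorem ext_cont (hD : D.IsSurf μ) (i : Fin D.N) {K : Set ℂ} (hK : IsCompact K) (hKT : K ⊆ D.T i)
    {g : ℂ → ℝ} (hg : ∀ z, z ∉ K → g z = 0) (hgc : ContinuousOn g (D.T i)) :
    Continuous (ext D i g) := by
  rw [continuous_iff_continuousAt]
  intro x
  by_cases hx : x ∈ D.U i
  · have h1 : ext D i g =ᶠ[𝓝 x] fun y => g (D.φ i y) := by
      filter_upwards [(hD.openU i).mem_nhds hx] with y hy
      exact if_pos hy
    refine ContinuousAt.congr ?_ h1.symm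
    have h2 : ContinuousAt g (D.φ i x) := hgc.continuousAt ((hD.openT i).mem_nhds ⟨x, hx, rfl⟩)
    exact ContinuousAt.comp (f := D.φ i) h2
      ((hD.contφ i).continuousAt ((hD.openU i).mem_nhds hx))
  · exact ContinuousAt.congr continuousAt_const
      ((ext_near hD i hK hKT hg hx).mono fun y hy => hy.symm)

omit [CompactSpace M] [BorelSpace M] in
theorem ext_C1 (hD : D.IsSurf μ) (i : Fin D.N) {K : Set ℂ} (hK : IsCompact K) (hKT : K ⊆ D.T i)
    {g : ℂ → ℝ} (hg : ∀ z, z ∉ K → g z = 0) (hgc : ContDiff ℝ ∞ g) : D.C1 (ext D i g) := by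
  intro j z hz
  apply ContDiffAt.contDiffWithinAt
  have hzT := hz
  obtain ⟨x, hxj, rfl⟩ := hz
  have hψ : ContinuousAt (D.ψ j) (D.φ j x) := (hD.contψ j).continuousAt ((hD.openT j).mem_nhds hzT)
  have hψx : D.ψ j (D.φ j x) = x := hD.left j x hxj
  have hψt : Tendsto (D.ψ j) (𝓝 (D.φ j x)) (𝓝 x) := by
    have := hψ.tendsto
    rwa [hψx] at this
  by_cases hx : x ∈ D.U i
  · have h1 : ∀ᶠ y in 𝓝 x, ext D i g y = g (D.φ i y) := by
      filter_upwards [(hD.openU i).mem_nhds hx] with y hy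
      exact if_pos hy
    have h2 : (fun z => ext D i g (D.ψ j z)) =ᶠ[𝓝 (D.φ j x)] fun z => g (D.φ i (D.ψ j z)) :=
      hψt.eventually h1
    refine ContDiffAt.congr_of_eventuallyEq ?_ h2
    exact (hgc.of_le (by simp)).contDiffAt.comp (D.φ j x) (hD.tr j i x hxj hx).1
  · have h1 := hψt.eventually (ext_near hD i hK hKT hg hx)
    exact ContDiffAt.congr_of_eventuallyEq (contDiffAt_const (c := (0 : ℝ))) h1

omit [CompactSpace M] [BorelSpace M] in
theorem gr_zero (hD : D.IsSurf μ) {F : M → ℝ} {x : M} (hx : ∀ᶠ y in 𝓝 x, F y = 0) :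
    D.gr F x = 0 := by
  unfold Data.gr
  apply Finset.sum_eq_zero
  intro j _
  by_cases hj : x ∈ D.pc j
  · rw [indicator_of_mem hj]
    have hxj : x ∈ D.U j := hj.1
    have hψ : ContinuousAt (D.ψ j) (D.φ j x) :=
      (hD.contψ j).continuousAt ((hD.openT j).mem_nhds ⟨x, hxj, rfl⟩)
    have hψx : D.ψ j (D.φ j x) = x := hD.left j x hxj
    have hψt : Tendsto (D.ψ j) (𝓝 (D.φ j x)) (𝓝 x) := by
      have := hψ.tendsto
      rwa [hψx] at this
    have h1 : (fun z => F (D.ψ j z)) =ᶠ[𝓝 (D.φ j x)] fun _ => (0 : ℝ) := hψt.eventually hx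
    unfold Data.gc Data.dc
    rw [h1.fderiv_eq]
    unfold grd
    simp
    rfl
  · rw [indicator_of_notMem hj]

theorem s_TR : S_TR := by
  intro M _ _ _ _ μ D hD i W hW hWc hWT hiso
  have hT := hD.openT i
  have hφψ : ∀ z ∈ D.T i, D.ψ i z ∈ D.U i ∧ D.φ i (D.ψ i z) = z := by
    rintro z ⟨x, hx, rfl⟩
    rw [hD.left i x hx]
    exact ⟨hx, rfl⟩
  have hAne : ∀ z ∈ D.T i, 0 < ‖D.A i z 1‖ := by
    intro z hz
    rw [norm_pos_iff]
    intro h0
    apply hD.det i z hz
    rw [det_eq, h0]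
    simp
  set k : ℂ → ℝ := fun z => -lap W z / ‖D.A i z 1‖ ^ 2 with hk
  have hWz : ∀ z, z ∉ tsupport W → W z = 0 := fun z hz => image_eq_zero_of_notMem_tsupport hz
  have hkz : ∀ z, z ∉ tsupport W → k z = 0 := by
    intro z hz
    simp only [hk]
    rw [lap_zero hz]
    simp
  have hAc : ContinuousOn (fun z => ‖D.A i z 1‖) (D.T i) :=
    ((hD.contA i).clm_apply continuousOn_const).norm
  have hkc : ContinuousOn k (D.T i) :=
    (lap_cont hW).neg.continuousOn.div (hAc.pow 2) fun z hz => by have := hAne z hz; positivity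
  have hhc : Continuous (ext D i k) := ext_cont hD i hWc hWT hkz hkc
  have hw1 : D.C1 (ext D i W) := ext_C1 hD i hWc hWT hWz hW
  refine ⟨ext D i W, ext D i k, hw1, hhc.measurable, ?_, ?_, ?_, ?_⟩
  · obtain ⟨B, hB⟩ := isCompact_univ.exists_bound_of_continuousOn hhc.continuousOn
    exact ⟨B, fun x => hB x (mem_univ x)⟩
  · intro z hz
    obtain ⟨h1, h2⟩ := hφψ z hz
    have h3 := hAne z hz
    constructor
    · unfold ext
      rw [if_pos h1, h2]
    · unfold ext
      rw [if_pos h1, h2]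
      simp only [hk]
      exact div_mul_cancel₀ _ (by positivity)
  · intro x hx
    unfold ext
    rw [if_neg hx, if_neg hx]
    exact ⟨rfl, rfl⟩
  · intro G hG
    obtain ⟨hgr1, hgr2, -⟩ := tGr M μ D hD
    -- left hand side
    have e1 : ∫ x, inner ℝ (D.gr (ext D i W) x) (D.gr G x) ∂μ =
        ∫ x in D.U i, inner ℝ (D.gr (ext D i W) x) (D.gr G x) ∂μ := by
      symm
      apply setIntegral_eq_integral_of_forall_compl_eq_zero
      intro x hx
      rw [gr_zero hD (ext_near hD i hWc hWT hWz hx), inner_zero_left]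
    have hm : AEStronglyMeasurable (fun x => inner ℝ (D.gr (ext D i W) x) (D.gr G x)) μ :=
      ((hgr1 _ hw1).2.1.inner (hgr1 _ hG).2.1).aestronglyMeasurable
    have e2 : ∫ x in D.U i, inner ℝ (D.gr (ext D i W) x) (D.gr G x) ∂μ =
        ∫ z in D.T i, inner ℝ (D.gr (ext D i W) (D.ψ i z)) (D.gr G (D.ψ i z)) * |(D.A i z).det| :=
      (tInt M μ D hD i).2 (D.U i) (hD.openU i).measurableSet subset_rfl _ hm
    have e3 : ∀ z ∈ D.T i, inner ℝ (D.gr (ext D i W) (D.ψ i z)) (D.gr G (D.ψ i z)) *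
        |(D.A i z).det| = fderiv ℝ W z 1 * fderiv ℝ (fun z => G (D.ψ i z)) z 1 +
          fderiv ℝ W z Complex.I * fderiv ℝ (fun z => G (D.ψ i z)) z Complex.I := by
      intro z hz
      obtain ⟨h1, h2⟩ := hφψ z hz
      rw [hgr2 _ _ hw1 hG i _ h1]
      unfold Data.gc Data.dc
      rw [h2]
      have h3 : (fun z => ext D i W (D.ψ i z)) =ᶠ[𝓝 z] W := by
        filter_upwards [hT.mem_nhds hz] with y hy
        obtain ⟨h4, h5⟩ := hφψ y hy
        unfold ext
        rw [if_pos h4, h5]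
      rw [h3.fderiv_eq]
      by_cases hzs : z ∈ tsupport W
      · exact inner_grd (hD.det i z hz) (hiso z hzs) _ _
      · have h4 : fderiv ℝ W z = 0 := by
          have h5 : W =ᶠ[𝓝 z] fun _ => (0 : ℝ) := notMem_tsupport_iff_eventuallyEq.1 hzs
          rw [h5.fderiv_eq]
          simp
        have h6 : grd (D.A i z) (0 : ℂ →L[ℝ] ℝ) = 0 := by
          unfold grd
          simp
          rfl
        rw [h4, h6, inner_zero_left]
        simp
    rw [e1, e2, setIntegral_congr_fun hT.measurableSet e3, ibp hT hW hWc hWT (hG i)]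
    -- right hand side
    have f1 : ∫ x, ext D i k x * G x ∂μ = ∫ x in D.U i, ext D i k x * G x ∂μ := by
      symm
      apply setIntegral_eq_integral_of_forall_compl_eq_zero
      intro x hx
      unfold ext
      rw [if_neg hx, zero_mul]
    have f2 : ∫ x in D.U i, ext D i k x * G x ∂μ =
        ∫ z in D.T i, ext D i k (D.ψ i z) * G (D.ψ i z) * |(D.A i z).det| :=
      (tInt M μ D hD i).2 (D.U i) (hD.openU i).measurableSet subset_rfl
        (fun x => ext D i k x * G x)
        (hhc.measurable.mul (hgr1 _ hG).1.measurable).aestronglyMeasurable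
    have f3 : ∀ z ∈ D.T i, ext D i k (D.ψ i z) * G (D.ψ i z) * |(D.A i z).det| =
        -lap W z * G (D.ψ i z) := by
      intro z hz
      obtain ⟨h1, h2⟩ := hφψ z hz
      unfold ext
      rw [if_pos h1, h2]
      by_cases hzs : z ∈ tsupport W
      · rw [det_sim _ (hiso z hzs)]
        have h3 := hAne z hz
        simp only [hk]
        field_simp
      · rw [hkz z hzs, lap_zero hzs]
        ring
    rw [f1, f2, setIntegral_congr_fun hT.measurableSet f3]

end

end Pool.Agent.L7h70.SB
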