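import Pool.Agent.L7h70.SB.Stm

/-! Project SB: correlations and Baire category. -/

set_option autoImplicit false

open Set Filter Topology MeasureTheory
open scoped Real ContDiff
open Pool.Agent.Y262.QE Pool.Agent.Y264.QR

noncomputable section

namespace Pool.Agent.L7h70.SB

open Pool.Agent.Results.MP_a825e8_mp.SurfacesLimitStatistics (IsUnfolded number surf area)
open Pool.Agent.Q205.Baire (Spectra count lt_count)
open Pool.Agent.N250.SP (exists_spectra)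

open Classical in
/-- the `n + 2`-point correlation -/
def corr (n : ℕ) (f : (Fin (n + 1) → ℝ) → ℝ) (T : ℝ) (x : ℕ → ℝ) : ℝ :=
  (∑ σ ∈ (Fintype.piFinset (fun _ : Fin (n + 2) => Finset.range (number T x))).filter
    (fun σ => Function.Injective σ), f (fun j => x (σ j.succ) - x (σ 0))) / T

theorem corr_ge {F : Type} [TopologicalSpace F] (X : Spectra F) (φ : F) (x : ℕ → ℝ)
    (hx : (fun k => X.x k φ) = x) (n : ℕ) (f : (Fin (n + 1) → ℝ) → ℝ) (hf0 : ∀ y, 0 ≤ f y)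
    (s T : ℝ) (hT : 0 < T) (m : ℝ) (hs : ∀ y : Fin (n + 1) → ℝ, (∀ j, |y j| < s) → m ≤ f y)
    (A : Finset (Fin (n + 2) → ℕ)) (hA : Tup n s T x A) : m * A.card / T ≤ corr n f T x := by
  classical
  subst hx
  unfold corr
  rw [div_le_div_iff_of_pos_right hT]
  have h1 : A ⊆ (Fintype.piFinset (fun _ : Fin (n + 2) =>
      Finset.range (number T fun k => X.x k φ))).filter (fun σ => Function.Injective σ) := by
    intro σ hσ
    obtain ⟨h1, h2, -⟩ := hA σ hσ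
    rw [Finset.mem_filter, Fintype.mem_piFinset]
    refine ⟨fun i => ?_, h1⟩
    rw [Finset.mem_range]
    exact (lt_count X T φ (σ i)).2 (h2 i).le
  calc m * A.card = ∑ _σ ∈ A, m := by rw [Finset.sum_const, nsmul_eq_mul, mul_comm]
    _ ≤ ∑ σ ∈ A, f (fun j => X.x (σ j.succ) φ - X.x (σ 0) φ) :=
        Finset.sum_le_sum fun σ hσ => hs _ fun j => (hA σ hσ).2.2 _ _
    _ ≤ _ := by
        refine le_trans (le_of_eq ?_) (Finset.sum_le_sum_of_subset_of_nonneg h1 fun _ _ _ => hf0 _)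
        rfl

/-- a continuous function with `0 < f 0` near zero -/
theorem near_zero {n : ℕ} {f : (Fin (n + 1) → ℝ) → ℝ} (hf : Continuous f) (h0 : 0 < f 0) :
    ∃ s : ℝ, 0 < s ∧ ∀ y : Fin (n + 1) → ℝ, (∀ j, |y j| < s) → f 0 / 2 ≤ f y := by
  have h1 : ∀ᶠ y in 𝓝 (0 : Fin (n + 1) → ℝ), f 0 / 2 < f y :=
    hf.continuousAt.eventually (lt_mem_nhds (by linarith))
  obtain ⟨s, hs, h2⟩ := Metric.eventually_nhds_iff.1 h1
  refine ⟨s, hs, fun y hy => ?_⟩
  refine (h2 ?_).le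
  rw [dist_zero_right, pi_norm_lt_iff hs]
  exact fun j => hy j

theorem clusters_scale {κ a : ℝ} (ha : 0 < a) {lam : ℕ → ℝ} (h : Clusters κ lam) :
    Clusters (a * κ) fun k => a * lam k := by
  intro δ hδ
  obtain ⟨γ, hγ, L, hL⟩ := h (δ / a) (by positivity)
  refine ⟨γ, hγ, L, fun l hl => ?_⟩
  obtain ⟨J, hJ1, hJ2⟩ := hL l hl
  refine ⟨J, hJ1, fun j hj => ?_⟩
  have h1 : a * lam j - a * κ * (l * (l + 1)) = a * (lam j - κ * (l * (l + 1))) := by ring
  rw [h1, abs_mul, abs_of_pos ha]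
  have := hJ2 j hj
  rw [le_div_iff₀ ha] at this
  linarith

section

variable {M : Type} [MetricSpace M] [CompactSpace M] [MeasurableSpace M] [BorelSpace M]
  [Nonempty M] {μ : Measure M} {D : Data M}

/-- the levels of a surface with a round band -/
theorem levels (hCL : S_CL) (hCN : S_CNT) (hD : D.IsSurf μ) (φ : C(M, ℝ)) (hB : HasBand D φ)
    (x : ℕ → ℝ) (hx : IsUnfolded D μ φ x) (n : ℕ) (s : ℝ) (hs : 0 < s) :
    ∃ c : ℝ, 0 < c ∧ ∀ᶠ T : ℝ in atTop, ∃ A : Finset (Fin (n + 2) → ℕ), Tup n s T x A ∧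
      c * T ^ (((n : ℝ) + 3) / 2) ≤ A.card := by
  obtain ⟨κ, hκ, h1⟩ := hCL M μ D hD φ hB
  obtain ⟨u, lam, hu, hxk⟩ := hx
  have h2 := h1 u lam ⟨hu.eig, hu.mono, hu.orth, hu.total⟩
  have ha : 0 < (area μ φ).real univ / (4 * π) := by
    have hwc : Continuous fun x => Real.exp (φ x) := Real.continuous_exp.comp φ.continuous
    obtain ⟨hDc, -⟩ := tConf M μ D hD _ hwc fun x => Real.exp_pos _
    obtain ⟨hfin, hpos⟩ := tFin M _ _ hDc
    haveI := hfin
    have h3 : 0 < (area μ φ) univ := hpos univ isOpen_univ univ_nonempty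
    have h4 : 0 < (area μ φ).real univ := by
      rw [measureReal_def]
      exact ENNReal.toReal_pos h3.ne' (measure_ne_top (wm μ fun x => Real.exp (φ x)) _)
    positivity
  have h3 := clusters_scale ha h2
  have h4 : (fun k => (area μ φ).real univ / (4 * π) * lam k) = x := by
    funext k
    rw [hxk]
  rw [h4] at h3
  exact hCN x _ (mul_pos ha hκ) h3 n s hs

/-- every metric with a round band -/
theorem every (hCL : S_CL) (hCN : S_CNT) (hD : D.IsSurf μ) (φ : C(M, ℝ)) (hB : HasBand D φ)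
    (x : ℕ → ℝ) (hx : IsUnfolded D μ φ x) (n : ℕ) (f : (Fin (n + 1) → ℝ) → ℝ)
    (hf : Continuous f) (hf0 : ∀ y, 0 ≤ f y) (hf1 : 0 < f 0) :
    ∃ c : ℝ, 0 < c ∧ ∀ᶠ T : ℝ in atTop, c * T ^ (((n : ℝ) + 1) / 2) ≤ corr n f T x := by
  obtain ⟨s, hs, h1⟩ := near_zero hf hf1
  obtain ⟨c, hc, h2⟩ := levels hCL hCN hD φ hB x hx n s hs
  obtain ⟨X, hX, -⟩ := exists_spectra M μ D hD Unit (fun _ => φ) continuous_const (fun _ => x)
    (fun _ => hx)
  refine ⟨f 0 / 2 * c, by positivity, ?_⟩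
  filter_upwards [h2, eventually_gt_atTop (0 : ℝ)] with T hA hT
  obtain ⟨A, hA1, hA2⟩ := hA
  have h3 := corr_ge X () x (hX ()) n f hf0 s T hT (f 0 / 2) h1 A hA1
  refine le_trans ?_ h3
  rw [le_div_iff₀ hT]
  have h4 : T ^ (((n : ℝ) + 1) / 2) * T = T ^ (((n : ℝ) + 3) / 2) := by
    rw [← Real.rpow_add_one hT.ne']
    congr 1
    ring
  calc f 0 / 2 * c * T ^ (((n : ℝ) + 1) / 2) * T =
      f 0 / 2 * (c * (T ^ (((n : ℝ) + 1) / 2) * T)) := by ring
    _ = f 0 / 2 * (c * T ^ (((n : ℝ) + 3) / 2)) := by rw [h4]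
    _ ≤ f 0 / 2 * A.card := mul_le_mul_of_nonneg_left hA2 (by positivity)

/-- generic metrics -/
theorem generic (hCL : S_CL) (hCN : S_CNT) (hD : D.IsSurf μ) (F : Type) [TopologicalSpace F]
    (ι : F → C(M, ℝ)) (hι : Continuous ι) (hd : Dense {φ : F | HasBand D (ι φ)})
    (x : F → ℕ → ℝ) (hx : ∀ φ, IsUnfolded D μ (ι φ) (x φ)) :
    ∀ᶠ φ in residual F, ∀ (n : ℕ) (f : (Fin (n + 1) → ℝ) → ℝ), Continuous f → (∀ y, 0 ≤ f y) →
      0 < f 0 → ∀ C : ℝ, ∃ᶠ T : ℝ in atTop, C ≤ corr n f T (x φ) := by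
  obtain ⟨X, hX, -⟩ := exists_spectra M μ D hD F ι hι x hx
  have hcont : ∀ k, Continuous fun φ => x φ k := by
    intro k
    have h1 : (fun φ => x φ k) = X.x k := by
      funext φ
      rw [← hX φ]
    rw [h1]
    exact X.cont k
  set O : ℕ × ℕ × ℕ × ℕ → Set F := fun p => {φ | ∃ T : ℝ, (p.2.2.2 : ℝ) < T ∧
    ∃ A : Finset (Fin (p.1 + 2) → ℕ), Tup p.1 (1 / ((p.2.1 : ℝ) + 1)) T (x φ) A ∧
      (p.2.2.1 : ℝ) * T < A.card} with hO
  have hopen : ∀ p, IsOpen (O p) := by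
    rintro ⟨n, q, C, T0⟩
    rw [isOpen_iff_mem_nhds]
    rintro φ ⟨T, hT, A, hA1, hA2⟩
    have h1 : ∀ σ ∈ A, ∀ᶠ ψ in 𝓝 φ, (∀ i, x ψ (σ i) < T) ∧
        ∀ i j, |x ψ (σ i) - x ψ (σ j)| < 1 / ((q : ℝ) + 1) := by
      intro σ hσ
      obtain ⟨-, h2, h3⟩ := hA1 σ hσ
      refine Eventually.and ?_ ?_
      · rw [eventually_all]
        exact fun i => (hcont _).continuousAt.eventually (gt_mem_nhds (h2 i))
      · rw [eventually_all]
        intro i
        rw [eventually_all]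
        intro j
        exact (((hcont _).sub (hcont _)).abs).continuousAt.eventually (gt_mem_nhds (h3 i j))
    have h2 := (Finset.eventually_all A).2 h1
    filter_upwards [h2] with ψ hψ
    exact ⟨T, hT, A, fun σ hσ => ⟨(hA1 σ hσ).1, (hψ σ hσ).1, (hψ σ hσ).2⟩, hA2⟩
  have hdense : ∀ p, Dense (O p) := by
    rintro ⟨n, q, C, T0⟩
    refine hd.mono ?_
    intro φ hφ
    obtain ⟨c, hc, h1⟩ := levels hCL hCN hD (ι φ) hφ (x φ) (hx φ) n (1 / ((q : ℝ) + 1))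
      (by positivity)
    have h2 : Tendsto (fun T : ℝ => c * T ^ (((n : ℝ) + 1) / 2)) atTop atTop :=
      (tendsto_rpow_atTop (by positivity)).const_mul_atTop hc
    obtain ⟨T, ⟨A, hA1, hA2⟩, hT1, hT2, hT3⟩ := (h1.and ((h2.eventually (eventually_gt_atTop (C : ℝ))).and
      ((eventually_gt_atTop (T0 : ℝ)).and (eventually_gt_atTop (0 : ℝ))))).exists
    refine ⟨T, hT2, A, hA1, lt_of_lt_of_le ?_ hA2⟩
    have h4 : T ^ (((n : ℝ) + 1) / 2) * T = T ^ (((n : ℝ) + 3) / 2) := by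
      rw [← Real.rpow_add_one hT3.ne']
      congr 1
      ring
    show (C : ℝ) * T < c * T ^ (((n : ℝ) + 3) / 2)
    rw [← h4, ← mul_assoc]
    exact mul_lt_mul_of_pos_right hT1 hT3
  have hres : ∀ᶠ φ in residual F, ∀ p, φ ∈ O p := by
    rw [eventually_countable_forall]
    exact fun p => residual_of_dense_open (hopen p) (hdense p)
  filter_upwards [hres] with φ hφ n f hf hf0 hf1 C
  obtain ⟨s, hs, h1⟩ := near_zero hf hf1
  obtain ⟨q, hq⟩ := exists_nat_one_div_lt hs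
  obtain ⟨C', hC'⟩ := exists_nat_gt (2 * |C| / f 0)
  rw [frequently_atTop]
  intro T1
  obtain ⟨T0, hT0⟩ := exists_nat_gt (max T1 0)
  obtain ⟨T, hT, A, hA1, hA2⟩ := hφ (n, q, C', T0)
  have hTpos : 0 < T := lt_of_le_of_lt (le_max_right _ _) (hT0.trans hT)
  refine ⟨T, ((le_max_left _ _).trans_lt (hT0.trans hT)).le, ?_⟩
  have h2 := corr_ge X φ (x φ) (hX φ) n f hf0 (1 / ((q : ℝ) + 1)) T hTpos (f 0 / 2)
    (fun y hy => h1 y fun j => (hy j).trans hq) A hA1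
  refine le_trans ?_ h2
  rw [le_div_iff₀ hTpos]
  rw [div_lt_iff₀ hf1] at hC'
  have h3 : (C' : ℝ) * T < A.card := hA2
  have h4 : |C| ≤ f 0 / 2 * C' := by linarith
  calc C * T ≤ |C| * T := mul_le_mul_of_nonneg_right (le_abs_self _) hTpos.le
    _ ≤ (f 0 / 2 * C') * T := mul_le_mul_of_nonneg_right h4 hTpos.le
    _ = f 0 / 2 * (C' * T) := by ring
    _ ≤ f 0 / 2 * A.card := mul_le_mul_of_nonneg_left h3.le (by positivity)

end

end Pool.Agent.L7h70.SB
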