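import Pool.Agent.L7h70.SB.Stm0

/-!
# Project SB (round bands): statements, part four (small gaps)
-/

set_option autoImplicit false

open Set Filter Topology

noncomputable section

namespace Pool.Agent.L7h70.SB

/-- `GAP` (small gaps). Proof: put `δ = κ / 4` and let `γ`, `L` be as in `Clusters`. For
`l ∈ [b √T / 2, b √T]`, `b` small, the indices `k` with `|x k - κ l (l + 1)| ≤ δ` form an interval
`p, ..., q` of at least `γ l` integers below `T`; since `∑_{p ≤ k < q} (x (k + 1) - x k) ≤ 2 δ`, at most
`2 δ √T / C` of these gaps are larger than `C / √T`; for `C` large at least `γ l / 4` of them are small.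
The intervals of different `l` are disjoint; sum over `l`. -/
def S_GAP : Prop :=
  ∀ (x : ℕ → ℝ) (κ : ℝ), 0 < κ → Monotone x → Tendsto x atTop atTop → Clusters κ x →
    ∃ c C : ℝ, 0 < c ∧ 0 < C ∧ ∀ᶠ T : ℝ in atTop, ∃ A : Finset ℕ,
      (∀ k ∈ A, x (k + 1) < T ∧ x (k + 1) - x k < C / Real.sqrt T) ∧ c * T ≤ A.card

end Pool.Agent.L7h70.SB
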