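import Pool.Agent.L7h70.SB.Bai
import Pool.Agent.L7h70.SB.Stm3

/-! Project SB: small gaps and Baire category. -/

set_option autoImplicit false

open Set Filter Topology MeasureTheory
open scoped Real ContDiff
open Pool.Agent.Y262.QE Pool.Agent.Y264.QR

noncomputable section

namespace Pool.Agent.L7h70.SB

open Pool.Agent.Results.MP_a825e8_mp.SurfacesLimitStatistics (IsUnfolded number surf area)
open Pool.Agent.Q205.Baire (Spectra count lt_count)
open Pool.Agent.N250.SP (exists_spectra)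

/-- the number of the levels `x k ≤ T` whose distance to the next level is less than `s` -/
def gaps (s T : ℝ) (x : ℕ → ℝ) : ℕ := Set.ncard {k : ℕ | x k ≤ T ∧ x (k + 1) - x k < s}

theorem gaps_ge {F : Type} [TopologicalSpace F] (X : Spectra F) (φ : F) (x : ℕ → ℝ)
    (hx : (fun k => X.x k φ) = x) (s T : ℝ) (A : Finset ℕ)
    (hA : ∀ k ∈ A, x (k + 1) < T ∧ x (k + 1) - x k < s) : A.card ≤ gaps s T x := by
  subst hx
  unfold gaps
  rw [← Set.ncard_coe_finset]
  apply Set.ncard_le_ncard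
  · intro k hk
    obtain ⟨h1, h2⟩ := hA k hk
    exact ⟨(X.mono φ (Nat.le_succ k)).trans h1.le, h2⟩
  · apply (Set.finite_Iio (count X T φ)).subset
    intro k hk
    exact (lt_count X T φ k).2 hk.1

section

variable {M : Type} [MetricSpace M] [CompactSpace M] [MeasurableSpace M] [BorelSpace M]
  [Nonempty M] {μ : Measure M} {D : Data M}

/-- the gaps of a surface with a round band -/
theorem levels2 (hCL : S_CL) (hG : S_GAP) (hD : D.IsSurf μ) (φ : C(M, ℝ)) (hB : HasBand D φ)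
    (x : ℕ → ℝ) (hx : IsUnfolded D μ φ x) :
    ∃ c C : ℝ, 0 < c ∧ 0 < C ∧ ∀ᶠ T : ℝ in atTop, ∃ A : Finset ℕ,
      (∀ k ∈ A, x (k + 1) < T ∧ x (k + 1) - x k < C / Real.sqrt T) ∧ c * T ≤ A.card := by
  obtain ⟨X, hX, -⟩ := exists_spectra M μ D hD Unit (fun _ => φ) continuous_const (fun _ => x)
    (fun _ => hx)
  have hX' : (fun k => X.x k ()) = x := hX ()
  have hmono : Monotone x := by rw [← hX']; exact X.mono ()
  have hunb : Tendsto x atTop atTop := by rw [← hX']; exact X.unb ()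
  obtain ⟨κ, hκ, h1⟩ := hCL M μ D hD φ hB
  obtain ⟨u, lam, hu, hxk⟩ := hx
  have h2 := h1 u lam ⟨hu.eig, hu.mono, hu.orth, hu.total⟩
  have ha : 0 < (area μ φ).real univ / (4 * π) := by
    have hwc : Continuous fun x => Real.exp (φ x) := Real.continuous_exp.comp φ.continuous
    obtain ⟨hDc, -⟩ := tConf M μ D hD _ hwc fun x => Real.exp_pos _
    obtain ⟨hfin, hpos⟩ := tFin M _ _ hDc
    haveI := hfin
    have h3 : 0 < (area μ φ) univ := hpos univ isOpen_univ univ_nonempty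
    have h4 : 0 < (area μ φ).real univ := by
      rw [measureReal_def]
      exact ENNReal.toReal_pos h3.ne' (measure_ne_top (wm μ fun x => Real.exp (φ x)) _)
    positivity
  have h3 := clusters_scale ha h2
  have h4 : (fun k => (area μ φ).real univ / (4 * π) * lam k) = x := by
    funext k
    rw [hxk]
  rw [h4] at h3
  exact hG x _ (mul_pos ha hκ) hmono hunb h3

theorem every2 (hCL : S_CL) (hG : S_GAP) (hD : D.IsSurf μ) (φ : C(M, ℝ)) (hB : HasBand D φ)
    (x : ℕ → ℝ) (hx : IsUnfolded D μ φ x) :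
    ∃ c C : ℝ, 0 < c ∧ 0 < C ∧ ∀ᶠ T : ℝ in atTop, c * T ≤ gaps (C / Real.sqrt T) T x := by
  obtain ⟨c, C, hc, hC, h1⟩ := levels2 hCL hG hD φ hB x hx
  obtain ⟨X, hX, -⟩ := exists_spectra M μ D hD Unit (fun _ => φ) continuous_const (fun _ => x)
    (fun _ => hx)
  refine ⟨c, C, hc, hC, ?_⟩
  filter_upwards [h1] with T hT
  obtain ⟨A, hA1, hA2⟩ := hT
  have h2 := gaps_ge X () x (hX ()) (C / Real.sqrt T) T A hA1
  exact hA2.trans (by exact_mod_cast h2)

theorem generic2 (hCL : S_CL) (hG : S_GAP) (hD : D.IsSurf μ) (F : Type) [TopologicalSpace F]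
    (ι : F → C(M, ℝ)) (hι : Continuous ι) (hd : Dense {φ : F | HasBand D (ι φ)})
    (x : F → ℕ → ℝ) (hx : ∀ φ, IsUnfolded D μ (ι φ) (x φ)) (a b : ℝ → ℝ)
    (ha : Tendsto (fun T => a T * Real.sqrt T) atTop atTop) (hb : Tendsto b atTop (𝓝 0)) :
    ∀ᶠ φ in residual F, ∃ᶠ T : ℝ in atTop, b T * T ≤ gaps (a T) T (x φ) := by
  obtain ⟨X, hX, -⟩ := exists_spectra M μ D hD F ι hι x hx
  have hcont : ∀ k, Continuous fun φ => x φ k := by
    intro k
    have h1 : (fun φ => x φ k) = X.x k := by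
      funext φ
      rw [← hX φ]
    rw [h1]
    exact X.cont k
  set O : ℕ → Set F := fun T0 => {φ | ∃ T : ℝ, (T0 : ℝ) < T ∧
    ∃ A : Finset ℕ, (∀ k ∈ A, x φ (k + 1) < T ∧ x φ (k + 1) - x φ k < a T) ∧
      b T * T < A.card} with hO
  have hopen : ∀ p, IsOpen (O p) := by
    intro T0
    rw [isOpen_iff_mem_nhds]
    rintro φ ⟨T, hT, A, hA1, hA2⟩
    have h1 : ∀ k ∈ A, ∀ᶠ ψ in 𝓝 φ, x ψ (k + 1) < T ∧ x ψ (k + 1) - x ψ k < a T := by
      intro k hk
      obtain ⟨h2, h3⟩ := hA1 k hk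
      exact ((hcont _).continuousAt.eventually (gt_mem_nhds h2)).and
        (((hcont _).sub (hcont _)).continuousAt.eventually (gt_mem_nhds h3))
    have h2 := (Finset.eventually_all A).2 h1
    filter_upwards [h2] with ψ hψ
    exact ⟨T, hT, A, hψ, hA2⟩
  have hdense : ∀ p, Dense (O p) := by
    intro T0
    refine hd.mono ?_
    intro φ hφ
    obtain ⟨c, C, hc, hC, h1⟩ := levels2 hCL hG hD (ι φ) hφ (x φ) (hx φ)
    obtain ⟨T, ⟨A, hA1, hA2⟩, hT1, hT2, hT3, hT4⟩ := (h1.and ((ha.eventually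
      (eventually_gt_atTop C)).and ((hb.eventually (gt_mem_nhds hc)).and
      ((eventually_gt_atTop (T0 : ℝ)).and (eventually_gt_atTop (0 : ℝ)))))).exists
    refine ⟨T, hT3, A, fun k hk => ⟨(hA1 k hk).1, (hA1 k hk).2.trans ?_⟩, lt_of_lt_of_le ?_ hA2⟩
    · rw [div_lt_iff₀ (Real.sqrt_pos.2 hT4)]
      exact hT1
    · exact mul_lt_mul_of_pos_right hT2 hT4
  have hres : ∀ᶠ φ in residual F, ∀ p, φ ∈ O p := by
    rw [eventually_countable_forall]
    exact fun p => residual_of_dense_open (hopen p) (hdense p)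
  filter_upwards [hres] with φ hφ
  rw [frequently_atTop]
  intro T1
  obtain ⟨T0, hT0⟩ := exists_nat_gt T1
  obtain ⟨T, hT, A, hA1, hA2⟩ := hφ T0
  refine ⟨T, (hT0.trans hT).le, ?_⟩
  have h2 := gaps_ge X φ (x φ) (hX φ) (a T) T A hA1
  have h3 : (A.card : ℝ) ≤ gaps (a T) T (x φ) := by exact_mod_cast h2
  exact hA2.le.trans h3

end

end Pool.Agent.L7h70.SB
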