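import Pool.Agent.Results.MP_a825e8_mp.RoundBand

/-!
# In the C⁰ topology the generic metric has unbounded correlations

`(M, g)` is a closed surface with a continuous Riemannian metric which is isothermal in a disc of some
chart. In the space `C(M)` of the conformal factors, with the uniform norm, the generic metric
`exp φ · g` has unbounded `n`-point correlations for all `n ≥ 2`: the local statistics of the generic
metric converge neither to those of the GOE nor to anything else. Its levels do not repel each other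
either: for all prescribed `a`, `b` with `a (T) √T → ∞` and `b (T) → 0` there are arbitrarily large `T`
for which at least `b (T) T` of the levels `x_k ≤ T` are closer than `a (T)` to the next level. If `g` is
smooth, a dense set of smooth metrics contains a band of a round sphere, and the correlations of these
metrics tend to infinity.
-/

set_option autoImplicit false

open Set Filter Topology MeasureTheory
open scoped Real ContDiff
open Pool.Agent.Y262.QE

noncomputable section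

namespace Pool.Agent.L7h70.SB.C0Gen

open Pool.Agent.Results.MP_a825e8_mp.SurfacesLimitStatistics (IsUnfolded number)
open Pool.Agent.Results.MP_a825e8_mp.RoundBand (HasBand corr gaps)

theorem result (M : Type) [MetricSpace M] [CompactSpace M] [MeasurableSpace M] [BorelSpace M]
    [Nonempty M] (μ : Measure M) (D : Data M) (hD : D.IsSurf μ)
    -- the metric is isothermal in a disc
    (i : Fin D.N) (z₀ : ℂ) (r : ℝ) (hr : 0 < r)
    (hiso : ∀ z ∈ Metric.ball z₀ r, z ∈ D.T i ∧ ∀ v, ‖D.A i z v‖ = ‖D.A i z 1‖ * ‖v‖)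
    (x : C(M, ℝ) → ℕ → ℝ) (hx : ∀ φ, IsUnfolded D μ φ (x φ)) :
    -- generic metrics have unbounded correlations
    (∀ᶠ φ in residual C(M, ℝ), ∀ (n : ℕ) (f : (Fin (n + 1) → ℝ) → ℝ), Continuous f →
      (∀ y, 0 ≤ f y) → 0 < f 0 → ∀ C : ℝ, ∃ᶠ T : ℝ in atTop, C ≤ corr n f T (x φ)) ∧
    -- generic metrics have many small gaps
    (∀ a b : ℝ → ℝ, Tendsto (fun T => a T * Real.sqrt T) atTop atTop → Tendsto b atTop (𝓝 0) →
      ∀ᶠ φ in residual C(M, ℝ), ∃ᶠ T : ℝ in atTop, b T * T ≤ gaps (a T) T (x φ)) ∧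
    -- a dense set of metrics, obtained by small changes in the disc, smooth if the metric is smooth there
    ∀ (φ : C(M, ℝ)) (ε : ℝ), 0 < ε → ∃ (ψ : C(M, ℝ)) (g : ℂ → ℝ), dist ψ φ < ε ∧
      tsupport g ⊆ Metric.ball z₀ r ∧ (∀ p, p ∉ D.U i → ψ p = φ p) ∧
      (∀ z ∈ D.T i, ψ (D.ψ i z) = φ (D.ψ i z) + g z) ∧
      (ContDiffOn ℝ ∞ (fun z => Real.exp (φ (D.ψ i z)) * ‖D.A i z 1‖ ^ 2) (Metric.ball z₀ r) →
        ContDiff ℝ ∞ g) ∧
      ∀ (n : ℕ) (f : (Fin (n + 1) → ℝ) → ℝ), Continuous f → (∀ y, 0 ≤ f y) → 0 < f 0 →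
        ∃ c : ℝ, 0 < c ∧ ∀ᶠ T : ℝ in atTop, c * T ^ (((n : ℝ) + 1) / 2) ≤ corr n f T (x ψ) := by
  have hd : Dense {φ : C(M, ℝ) | Pool.Agent.L7h70.SB.HasBand D φ} := by
    rw [Metric.dense_iff]
    intro φ ε hε
    obtain ⟨ψ, g, h1, h2, -⟩ := Pool.Agent.L7h70.SB.t_DEN M μ D hD i z₀ r hr hiso φ ε hε
    exact ⟨ψ, Metric.mem_ball.2 h2, h1⟩
  refine ⟨?_, ?_, ?_⟩
  · exact Pool.Agent.L7h70.SB.generic Pool.Agent.L7h70.SB.t_CL Pool.Agent.L7h70.SB.t_CNT hD
      C(M, ℝ) id continuous_id hd x hx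
  · intro a b ha hb
    exact Pool.Agent.L7h70.SB.generic2 Pool.Agent.L7h70.SB.t_CL Pool.Agent.L7h70.SB.t_GAP hD
      C(M, ℝ) id continuous_id hd x hx a b ha hb
  · intro φ ε hε
    obtain ⟨ψ, g, h1, h2, h3, h4, h5, h6⟩ :=
      Pool.Agent.L7h70.SB.t_DEN M μ D hD i z₀ r hr hiso φ ε hε
    exact ⟨ψ, g, h2, h3, h4, h5, h6, fun n f hf hf0 hf1 =>
      (Pool.Agent.Results.MP_a825e8_mp.RoundBand.result M μ D hD ψ h1 (x ψ) (hx ψ)).1 n f hf hf0 hf1⟩

end Pool.Agent.L7h70.SB.C0Gen
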