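import Pool.Agent.L7h70.SB.Stm
import Pool.Agent.L7h70.SB.Det

/-! Project SB: `CL` from `PL`, `SPEC`, `WEQ`, `TR`. -/

set_option autoImplicit false

open Set Filter Topology MeasureTheory
open scoped Real ContDiff
open Pool.Agent.Y262.QE Pool.Agent.Y264.QR

noncomputable section

namespace Pool.Agent.L7h70.SB

theorem fd_sc {V : ℂ → ℝ} (hV : Differentiable ℝ V) (a b : ℝ) (z₀ z v : ℂ) :
    fderiv ℝ (fun y => a * V (b • (y - z₀))) z v = a * b * fderiv ℝ V (b • (z - z₀)) v := by
  have h1 : HasFDerivAt (fun y : ℂ => b • (y - z₀)) (b • ContinuousLinearMap.id ℝ ℂ) z :=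
    ((hasFDerivAt_id z).sub_const z₀).const_smul b
  have h2 : HasFDerivAt (fun y : ℂ => a * V (b • (y - z₀)))
      (a • (fderiv ℝ V (b • (z - z₀))).comp (b • ContinuousLinearMap.id ℝ ℂ)) z :=
    ((hV _).hasFDerivAt.comp z h1).const_mul a
  rw [h2.fderiv]
  simp [mul_assoc]

theorem lap_sc {V : ℂ → ℝ} (hV : ContDiff ℝ ∞ V) (a b : ℝ) (z₀ z : ℂ) :
    lap (fun y => a * V (b • (y - z₀))) z = a * b ^ 2 * lap V (b • (z - z₀)) := by
  have hd : Differentiable ℝ V := hV.differentiable (by simp)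
  have hd2 : ∀ v : ℂ, Differentiable ℝ (fun y => fderiv ℝ V y v) := fun v =>
    (((hV.fderiv_right (m := ∞) (by simp)).clm_apply contDiff_const).differentiable (by simp))
  have h1 : ∀ v : ℂ, (fun y => fderiv ℝ (fun y => a * V (b • (y - z₀))) y v) =
      fun y => (a * b) * (fun y => fderiv ℝ V y v) (b • (y - z₀)) := by
    intro v
    funext y
    rw [fd_sc hd]
  unfold lap
  rw [h1, h1, fd_sc (hd2 _), fd_sc (hd2 _)]
  ring

theorem int_sc (g : ℂ → ℝ) (R : ℝ) (hR : 0 < R) (z₀ : ℂ) :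
    ∫ z, g (R⁻¹ • (z - z₀)) = R ^ 2 * ∫ z, g z := by
  have h1 : ∫ z, g (R⁻¹ • (z - z₀)) = ∫ z, g (R⁻¹ • z) :=
    integral_sub_right_eq_self (fun z => g (R⁻¹ • z)) z₀
  rw [h1, Measure.integral_comp_smul, Complex.finrank_real_complex]
  simp only [inv_pow, inv_inv, smul_eq_mul]
  rw [abs_of_pos (by positivity)]

theorem P_eq (c R : ℝ) (hR : 0 < R) (z₀ z : ℂ) :
    c * (2 * R / (R ^ 2 + ‖z - z₀‖ ^ 2)) ^ 2 = c * R⁻¹ ^ 2 * rho (R⁻¹ • (z - z₀)) := by
  unfold rho
  rw [norm_smul, Real.norm_eq_abs, abs_of_pos (inv_pos.2 hR)]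
  have h1 : R ^ 2 + ‖z - z₀‖ ^ 2 ≠ 0 := by positivity
  have h2 : (1 : ℝ) + (R⁻¹ * ‖z - z₀‖) ^ 2 ≠ 0 := by positivity
  field_simp

theorem rho_pos (z : ℂ) : 0 < rho z := by unfold rho; positivity

section

variable {M : Type} [MetricSpace M] [CompactSpace M] [MeasurableSpace M] [BorelSpace M]
  {μ : Measure M} {D : Data M}

/-- integrals of functions which live in one chart -/
theorem int_M (hD : D.IsSurf μ) (φ : C(M, ℝ)) (i : Fin D.N) (g : M → ℝ) (hg : Measurable g)
    (h0 : ∀ x, x ∉ D.U i → g x = 0) :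
    ∫ x, g x ∂(wm μ fun x => Real.exp (φ x)) =
      ∫ z in D.T i, Real.exp (φ (D.ψ i z)) * g (D.ψ i z) * |(D.A i z).det| := by
  have hm : Measurable fun x => Real.exp (φ x) := (Real.continuous_exp.comp φ.continuous).measurable
  rw [integral_wm μ _ hm fun x => (Real.exp_pos _).le]
  have h1 : ∫ x, Real.exp (φ x) * g x ∂μ = ∫ x in D.U i, Real.exp (φ x) * g x ∂μ := by
    symm
    apply setIntegral_eq_integral_of_forall_compl_eq_zero
    intro x hx
    rw [h0 x hx, mul_zero]
  rw [h1]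
  exact (tInt M μ D hD i).2 (D.U i) (hD.openU i).measurableSet subset_rfl
    (fun x => Real.exp (φ x) * g x) (hm.mul hg).aestronglyMeasurable

theorem s_CL (hPL : S_PL) (hSP : S_SPEC) (hWE : S_WEQ) (hTR : S_TR) : S_CL := by
  intro M _ _ _ _ μ D hD φ hB
  obtain ⟨i, z₀, R, η, c, hR, hη, hc, hb⟩ := hB
  refine ⟨1 / c, by positivity, fun u lam hu δ hδ => ?_⟩
  obtain ⟨γ, θ, hγ, hθ, hθ1, L, hL⟩ := hPL η hη
  have hlim : Tendsto (fun l : ℕ => 2 / c ^ 2 * ((l : ℝ) * θ ^ l)) atTop (𝓝 (2 / c ^ 2 * 0)) :=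
    (tendsto_self_mul_const_pow_of_lt_one hθ.le hθ1).const_mul _
  rw [mul_zero] at hlim
  obtain ⟨L', hL'⟩ := eventually_atTop.1 (hlim.eventually (gt_mem_nhds (show 0 < δ ^ 2 by positivity)))
  refine ⟨γ, hγ, max L L', fun l hl => ?_⟩
  obtain ⟨N, V, hN1, hN2, hV1, hV2, hV3⟩ := hL l ((le_max_left _ _).trans hl)
  have hsmall := hL' l ((le_max_right _ _).trans hl)
  -- the surface exp φ · g
  have hwc : Continuous fun x => Real.exp (φ x) := Real.continuous_exp.comp φ.continuous
  obtain ⟨hDc, -⟩ := tConf M μ D hD _ hwc fun x => Real.exp_pos _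
  obtain ⟨hfin, -⟩ := tFin M _ _ hDc
  obtain ⟨hfinμ, -⟩ := tFin M _ _ hD
  haveI := hfin
  haveI := hfinμ
  -- the annulus
  have hann : ∀ z : ℂ, Real.exp (-η) < ‖R⁻¹ • (z - z₀)‖ ∧ ‖R⁻¹ • (z - z₀)‖ < Real.exp η →
      z ∈ D.T i ∧ (∀ v, Real.exp (φ (D.ψ i z)) * ‖D.A i z v‖ ^ 2 =
        c * R⁻¹ ^ 2 * rho (R⁻¹ • (z - z₀)) * ‖v‖ ^ 2) := by
    rintro z ⟨h1, h2⟩
    rw [norm_smul, Real.norm_eq_abs, abs_of_pos (inv_pos.2 hR)] at h1 h2
    have h3 : R * Real.exp (-η) ≤ ‖z - z₀‖ := by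
      have := mul_lt_mul_of_pos_left h1 hR
      rw [mul_inv_cancel_left₀ hR.ne'] at this
      exact this.le
    have h4 : ‖z - z₀‖ ≤ R * Real.exp η := by
      have := mul_lt_mul_of_pos_left h2 hR
      rw [mul_inv_cancel_left₀ hR.ne'] at this
      exact this.le
    obtain ⟨h5, h6⟩ := hb z h3 h4
    refine ⟨h5, fun v => ?_⟩
    rw [h6 v, P_eq c R hR]
  have hcR : 0 < c * R⁻¹ ^ 2 := by positivity
  have hiso : ∀ z : ℂ, Real.exp (-η) < ‖R⁻¹ • (z - z₀)‖ ∧ ‖R⁻¹ • (z - z₀)‖ < Real.exp η →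
      ∀ v, ‖D.A i z v‖ = ‖D.A i z 1‖ * ‖v‖ := by
    intro z hz v
    obtain ⟨-, h1⟩ := hann z hz
    have h2 := h1 v
    have h3 := h1 1
    rw [norm_one, one_pow, mul_one] at h3
    have h4 : ‖D.A i z v‖ ^ 2 = (‖D.A i z 1‖ * ‖v‖) ^ 2 := by
      have h5 : Real.exp (φ (D.ψ i z)) * ‖D.A i z v‖ ^ 2 =
          Real.exp (φ (D.ψ i z)) * (‖D.A i z 1‖ * ‖v‖) ^ 2 := by
        rw [h2, ← h3]; ring
      exact mul_left_cancel₀ (Real.exp_pos _).ne' h5
    exact (sq_eq_sq₀ (norm_nonneg _) (by positivity)).1 h4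
  have hAne : ∀ z ∈ D.T i, 0 < ‖D.A i z 1‖ := by
    intro z hz
    rw [norm_pos_iff]
    intro h0
    apply hD.det i z hz
    rw [det_eq, h0]
    simp
  -- the quasimodes
  set a : ℝ := (Real.sqrt c)⁻¹ with ha
  have ha2 : a ^ 2 * c = 1 := by
    rw [ha, inv_pow, Real.sq_sqrt hc.le]
    exact inv_mul_cancel₀ hc.ne'
  set W : Fin N → ℂ → ℝ := fun k z => a * V k (R⁻¹ • (z - z₀)) with hW
  have hsc : ContDiff ℝ ∞ fun z : ℂ => R⁻¹ • (z - z₀) :=
    (contDiff_id.sub contDiff_const).const_smul _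
  have hWd : ∀ k, ContDiff ℝ ∞ (W k) := fun k => contDiff_const.mul ((hV1 k).1.comp hsc)
  have hWts : ∀ k, ∀ z ∈ tsupport (W k), R⁻¹ • (z - z₀) ∈ tsupport (V k) := by
    intro k z hz
    have h1 : tsupport (W k) ⊆ (fun z : ℂ => R⁻¹ • (z - z₀)) ⁻¹' tsupport (V k) := by
      apply closure_minimal
      · intro y hy
        apply subset_tsupport
        rw [Function.mem_support] at hy ⊢
        intro h0
        apply hy
        simp only [hW]
        rw [h0, mul_zero]
      · exact (isClosed_tsupport _).preimage hsc.continuous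
    exact h1 hz
  have hWan : ∀ k, ∀ z ∈ tsupport (W k),
      Real.exp (-η) < ‖R⁻¹ • (z - z₀)‖ ∧ ‖R⁻¹ • (z - z₀)‖ < Real.exp η := fun k z hz =>
    (hV1 k).2 (hWts k z hz)
  have hWT : ∀ k, tsupport (W k) ⊆ D.T i := fun k z hz => (hann z (hWan k z hz)).1
  have hWc : ∀ k, HasCompactSupport (W k) := by
    intro k
    apply HasCompactSupport.intro (K := Metric.closedBall z₀ (R * Real.exp η))
      (isCompact_closedBall _ _)
    intro z hz
    by_contra hne
    apply hz
    have h1 := (hWan k z (subset_tsupport _ hne)).2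
    rw [norm_smul, Real.norm_eq_abs, abs_of_pos (inv_pos.2 hR)] at h1
    have := mul_lt_mul_of_pos_left h1 hR
    rw [mul_inv_cancel_left₀ hR.ne'] at this
    rw [Metric.mem_closedBall, dist_eq_norm]
    exact this.le
  choose w h hw hhm hhb hwh hzero hweak using fun k : Fin N =>
    hTR M μ D hD i (W k) (hWd k) (hWc k) (hWT k) (fun z hz => hiso z (hWan k z hz))
  have hwcont : ∀ k, Continuous (w k) := fun k => ((tGr M μ D hD).1 (w k) (hw k)).1
  have hwbdd : ∀ k, ∃ B, ∀ x, |w k x| ≤ B := by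
    intro k
    obtain ⟨B, hB⟩ := isCompact_univ.exists_bound_of_continuousOn (hwcont k).continuousOn
    exact ⟨B, fun x => hB x (mem_univ x)⟩
  set Λ : ℝ := 1 / c * (l * (l + 1)) with hΛ
  set f : Fin N → M → ℝ := fun k x => Real.exp (-φ x) * h k x - Λ * w k x with hf
  have hem : Measurable fun x => Real.exp (-φ x) :=
    (Real.continuous_exp.comp φ.continuous.neg).measurable
  have hfm : ∀ k, Measurable (f k) := fun k => (hem.mul (hhm k)).sub ((hwcont k).measurable.const_mul _)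
  have heb : ∃ B, ∀ x, |Real.exp (-φ x)| ≤ B := by
    obtain ⟨B, hB⟩ := isCompact_univ.exists_bound_of_continuousOn
      (Real.continuous_exp.comp φ.continuous.neg).continuousOn
    exact ⟨B, fun x => hB x (mem_univ x)⟩
  have hehb : ∀ k, ∃ B, ∀ x, |Real.exp (-φ x) * h k x| ≤ B := by
    intro k
    obtain ⟨B1, h1⟩ := heb
    obtain ⟨B2, h2⟩ := hhb k
    refine ⟨B1 * B2, fun x => ?_⟩
    rw [abs_mul]
    exact mul_le_mul (h1 x) (h2 x) (abs_nonneg _) ((abs_nonneg _).trans (h1 x))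
  have hfb : ∀ k, ∃ B, ∀ x, |f k x| ≤ B := by
    intro k
    obtain ⟨B1, h1⟩ := hehb k
    obtain ⟨B2, h2⟩ := hwbdd k
    refine ⟨B1 + |Λ| * B2, fun x => ?_⟩
    calc |f k x| ≤ |Real.exp (-φ x) * h k x| + |Λ * w k x| := abs_sub _ _
      _ ≤ B1 + |Λ| * B2 := by
          rw [abs_mul Λ]
          exact add_le_add (h1 x) (mul_le_mul_of_nonneg_left (h2 x) (abs_nonneg _))
  have hmem : ∀ g : M → ℝ, Measurable g → (∃ B, ∀ x, |g x| ≤ B) →
      MemLp g 2 (wm μ fun x => Real.exp (φ x)) := by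
    rintro g hg ⟨B, hB⟩
    exact MemLp.of_bound hg.aestronglyMeasurable B (Eventually.of_forall hB)
  obtain ⟨hpars, hweq⟩ := hWE M μ D hD φ u lam hu
  -- scalar products
  have hprod : ∀ k k', ∫ x, w k x * w k' x ∂(wm μ fun x => Real.exp (φ x)) =
      if k = k' then 1 else 0 := by
    intro k k'
    rw [int_M hD φ i (fun x => w k x * w k' x) ((hwcont k).measurable.mul (hwcont k').measurable)
      (fun x hx => by rw [(hzero k x hx).1, zero_mul])]
    have h1 : ∀ z ∈ D.T i, Real.exp (φ (D.ψ i z)) * (w k (D.ψ i z) * w k' (D.ψ i z)) *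
        |(D.A i z).det| = R⁻¹ ^ 2 * (fun y => rho y * (V k y * V k' y)) (R⁻¹ • (z - z₀)) := by
      intro z hz
      rw [(hwh k z hz).1, (hwh k' z hz).1]
      by_cases hzt : z ∈ tsupport (W k)
      · have h2 := hWan k z hzt
        obtain ⟨-, h3⟩ := hann z h2
        have h4 := h3 1
        rw [norm_one, one_pow, mul_one] at h4
        rw [det_sim _ (hiso z h2)]
        simp only [hW]
        calc Real.exp (φ (D.ψ i z)) * (a * V k (R⁻¹ • (z - z₀)) * (a * V k' (R⁻¹ • (z - z₀)))) *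
            ‖D.A i z 1‖ ^ 2 = (Real.exp (φ (D.ψ i z)) * ‖D.A i z 1‖ ^ 2) *
              (a ^ 2 * (V k (R⁻¹ • (z - z₀)) * V k' (R⁻¹ • (z - z₀)))) := by ring
          _ = (a ^ 2 * c) * (R⁻¹ ^ 2 * (rho (R⁻¹ • (z - z₀)) *
              (V k (R⁻¹ • (z - z₀)) * V k' (R⁻¹ • (z - z₀))))) := by rw [h4]; ring
          _ = _ := by rw [ha2, one_mul]
      · have h2 : W k z = 0 := image_eq_zero_of_notMem_tsupport hzt
        have h3 : V k (R⁻¹ • (z - z₀)) = 0 := by
          have h4 : a * V k (R⁻¹ • (z - z₀)) = 0 := h2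
          have h5 : a ≠ 0 := by
            intro h0
            rw [h0] at ha2
            norm_num at ha2
          exact (mul_eq_zero.1 h4).resolve_left h5
        simp only []
        rw [h2, h3]
        ring
    rw [setIntegral_congr_fun (hD.openT i).measurableSet h1]
    have h2 : ∫ z in D.T i, R⁻¹ ^ 2 * (fun y => rho y * (V k y * V k' y)) (R⁻¹ • (z - z₀)) =
        ∫ z, R⁻¹ ^ 2 * (fun y => rho y * (V k y * V k' y)) (R⁻¹ • (z - z₀)) := by
      apply setIntegral_eq_integral_of_forall_compl_eq_zero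
      intro z hz
      have h3 : V k (R⁻¹ • (z - z₀)) = 0 := by
        by_contra hne
        exact hz (hann z ((hV1 k).2 (subset_tsupport _ hne))).1
      simp only []
      rw [h3]
      ring
    rw [h2, integral_const_mul, int_sc (fun y => rho y * (V k y * V k' y)) R hR, hV2]
    rw [← mul_assoc, inv_pow, inv_mul_cancel₀ (by positivity : R ^ 2 ≠ 0), one_mul]
  -- errors
  have herr : ∀ k, ∫ x, f k x * f k x ∂(wm μ fun x => Real.exp (φ x)) ≤ θ ^ l / c ^ 2 := by
    intro k
    have hlapW : ∀ z, lap (W k) z = a * R⁻¹ ^ 2 * lap (V k) (R⁻¹ • (z - z₀)) := fun z =>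
      lap_sc (hV1 k).1 a R⁻¹ z₀ z
    rw [int_M hD φ i (fun x => f k x * f k x) ((hfm k).mul (hfm k))
      (fun x hx => by simp only [hf]; rw [(hzero k x hx).1, (hzero k x hx).2]; ring)]
    have h1 : ∀ z ∈ D.T i, Real.exp (φ (D.ψ i z)) * (f k (D.ψ i z) * f k (D.ψ i z)) *
        |(D.A i z).det| = (c ^ 2)⁻¹ * (R⁻¹ ^ 2 *
          (fun y => (lap (V k) y + l * (l + 1) * (rho y * V k y)) ^ 2 / rho y)
            (R⁻¹ • (z - z₀))) := by
      intro z hz
      by_cases hzt : z ∈ tsupport (W k)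
      · have h2 := hWan k z hzt
        obtain ⟨-, h3⟩ := hann z h2
        have h4 := h3 1
        rw [norm_one, one_pow, mul_one] at h4
        rw [det_sim _ (hiso z h2)]
        simp only [hf]
        have h5 := (hwh k z hz).2
        rw [hlapW] at h5
        rw [(hwh k z hz).1, Real.exp_neg]
        set Z := R⁻¹ • (z - z₀) with hZ
        set e := Real.exp (φ (D.ψ i z)) with he
        have hepos : 0 < e := Real.exp_pos _
        have hAp := hAne z hz
        have hr := rho_pos Z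
        have h6 : h k (D.ψ i z) = -(a * R⁻¹ ^ 2 * lap (V k) Z) / ‖D.A i z 1‖ ^ 2 := by
          rw [eq_div_iff (by positivity)]
          exact h5
        have h7 : W k z = a * V k Z := rfl
        rw [h6, h7]
        have h8 : ‖D.A i z 1‖ ^ 2 = c * R⁻¹ ^ 2 * rho Z / e := by
          rw [eq_div_iff hepos.ne', mul_comm]
          exact h4
        rw [h8, hΛ]
        have h9 : a ^ 2 = 1 / c := by rw [eq_div_iff hc.ne']; exact ha2
        have h10 : e * ((e⁻¹ * (-(a * R⁻¹ ^ 2 * lap (V k) Z) / (c * R⁻¹ ^ 2 * rho Z / e)) -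
            1 / c * (l * (l + 1)) * (a * V k Z)) *
            (e⁻¹ * (-(a * R⁻¹ ^ 2 * lap (V k) Z) / (c * R⁻¹ ^ 2 * rho Z / e)) -
            1 / c * (l * (l + 1)) * (a * V k Z))) * (c * R⁻¹ ^ 2 * rho Z / e) =
            a ^ 2 * (R⁻¹ ^ 2 * (c⁻¹ * ((lap (V k) Z + l * (l + 1) * (rho Z * V k Z)) ^ 2 / rho Z))) := by
          field_simp
          ring
        rw [h10, h9]
        field_simp
      · have h2 : W k z = 0 := image_eq_zero_of_notMem_tsupport hzt
        have hev : W k =ᶠ[𝓝 z] 0 := notMem_tsupport_iff_eventuallyEq.1 hzt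
        have ha0 : a ≠ 0 := by
          intro h0
          rw [h0] at ha2
          norm_num at ha2
        have h3 : V k (R⁻¹ • (z - z₀)) = 0 := by
          have h4 : a * V k (R⁻¹ • (z - z₀)) = 0 := h2
          exact (mul_eq_zero.1 h4).resolve_left ha0
        have h5 : lap (W k) z = 0 := by
          have hev2 : ∀ᶠ y in 𝓝 z, fderiv ℝ (W k) y = 0 := by
            filter_upwards [eventually_eventually_nhds.2 hev] with y hy
            have h6 : W k =ᶠ[𝓝 y] fun _ => (0 : ℝ) := hy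
            rw [h6.fderiv_eq]
            simp
          unfold lap
          have h7 : ∀ v : ℂ, fderiv ℝ (fun y => fderiv ℝ (W k) y v) z v = 0 := by
            intro v
            have h8 : (fun y => fderiv ℝ (W k) y v) =ᶠ[𝓝 z] fun _ => (0 : ℝ) := by
              filter_upwards [hev2] with y hy
              rw [hy]
              simp
            rw [h8.fderiv_eq]
            simp
          rw [h7, h7, add_zero]
        have h6 : lap (V k) (R⁻¹ • (z - z₀)) = 0 := by
          rw [hlapW] at h5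
          rcases mul_eq_zero.1 h5 with h7 | h7
          · rcases mul_eq_zero.1 h7 with h8 | h8
            · exact absurd h8 ha0
            · exact absurd h8 (by positivity)
          · exact h7
        have h7 := (hwh k z hz).2
        rw [h5, neg_zero] at h7
        have h8 : h k (D.ψ i z) = 0 := by
          rcases mul_eq_zero.1 h7 with h9 | h9
          · exact h9
          · exact absurd h9 (by have := hAne z hz; positivity)
        simp only [hf]
        rw [(hwh k z hz).1, h8, h2, h6, h3]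
        simp
    rw [setIntegral_congr_fun (hD.openT i).measurableSet h1]
    have h2 : ∫ z in D.T i, (c ^ 2)⁻¹ * (R⁻¹ ^ 2 *
          (fun y => (lap (V k) y + l * (l + 1) * (rho y * V k y)) ^ 2 / rho y)
            (R⁻¹ • (z - z₀))) ≤ ∫ z, (c ^ 2)⁻¹ * (R⁻¹ ^ 2 *
          (fun y => (lap (V k) y + l * (l + 1) * (rho y * V k y)) ^ 2 / rho y)
            (R⁻¹ • (z - z₀))) := by
      apply le_of_eq
      apply setIntegral_eq_integral_of_forall_compl_eq_zero
      intro z hz
      have h3 : z ∉ tsupport (W k) := fun h => hz (hWT k h)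
      have h2 : W k z = 0 := image_eq_zero_of_notMem_tsupport h3
      have hev : W k =ᶠ[𝓝 z] 0 := notMem_tsupport_iff_eventuallyEq.1 h3
      have ha0 : a ≠ 0 := by
        intro h0
        rw [h0] at ha2
        norm_num at ha2
      have h3 : V k (R⁻¹ • (z - z₀)) = 0 := by
        have h4 : a * V k (R⁻¹ • (z - z₀)) = 0 := h2
        exact (mul_eq_zero.1 h4).resolve_left ha0
      have h5 : lap (W k) z = 0 := by
        have hev2 : ∀ᶠ y in 𝓝 z, fderiv ℝ (W k) y = 0 := by
          filter_upwards [eventually_eventually_nhds.2 hev] with y hy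
          have h6 : W k =ᶠ[𝓝 y] fun _ => (0 : ℝ) := hy
          rw [h6.fderiv_eq]
          simp
        unfold lap
        have h7 : ∀ v : ℂ, fderiv ℝ (fun y => fderiv ℝ (W k) y v) z v = 0 := by
          intro v
          have h8 : (fun y => fderiv ℝ (W k) y v) =ᶠ[𝓝 z] fun _ => (0 : ℝ) := by
            filter_upwards [hev2] with y hy
            rw [hy]
            simp
          rw [h8.fderiv_eq]
          simp
        rw [h7, h7, add_zero]
      have h6 : lap (V k) (R⁻¹ • (z - z₀)) = 0 := by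
        rw [hlapW] at h5
        rcases mul_eq_zero.1 h5 with h7 | h7
        · rcases mul_eq_zero.1 h7 with h8 | h8
          · exact absurd h8 ha0
          · exact absurd h8 (by positivity)
        · exact h7
      simp only []
      rw [h6, h3]
      simp
    refine h2.trans ?_
    rw [integral_const_mul, integral_const_mul,
      int_sc (fun y => (lap (V k) y + l * (l + 1) * (rho y * V k y)) ^ 2 / rho y) R hR]
    have h3 := hV3 k
    calc (c ^ 2)⁻¹ * (R⁻¹ ^ 2 * (R ^ 2 *
        ∫ z, (lap (V k) z + l * (l + 1) * (rho z * V k z)) ^ 2 / rho z)) =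
        (c ^ 2)⁻¹ * ∫ z, (lap (V k) z + l * (l + 1) * (rho z * V k z)) ^ 2 / rho z := by
          field_simp
      _ ≤ (c ^ 2)⁻¹ * θ ^ l := mul_le_mul_of_nonneg_left h3 (by positivity)
      _ = θ ^ l / c ^ 2 := by ring
  -- the spectral lemma
  obtain ⟨J, hJ1, hJ2⟩ := hSP N lam Λ δ
    (fun k j => ∫ x, w k x * u j x ∂(wm μ fun x => Real.exp (φ x)))
    (fun k j => ∫ x, f k x * u j x ∂(wm μ fun x => Real.exp (φ x)))
    (fun k => ∫ x, f k x * f k x ∂(wm μ fun x => Real.exp (φ x))) hδ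
    (fun k k' => by
      have h1 := hpars (w k) (w k') (hmem _ (hwcont k).measurable (hwbdd k))
        (hmem _ (hwcont k').measurable (hwbdd k'))
      rw [hprod] at h1
      exact h1)
    (fun k => by
      have h1 := hpars (f k) (f k) (hmem _ (hfm k) (hfb k)) (hmem _ (hfm k) (hfb k))
      simpa only [sq] using h1)
    (fun k j => by
      have h1 := hweq (w k) (h k) (hw k) (hhm k) (hhb k) (hweak k) j
      have hu2 : MemLp (u j) 2 (wm μ fun x => Real.exp (φ x)) := (hu.eig j).mem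
      have hi1 : Integrable (fun x => (Real.exp (-φ x) * h k x) * u j x)
          (wm μ fun x => Real.exp (φ x)) := by
        obtain ⟨B, hB⟩ := hehb k
        exact (hu2.integrable one_le_two).bdd_mul (c := B) (hem.mul (hhm k)).aestronglyMeasurable
          (Eventually.of_forall hB)
      have hi2 : Integrable (fun x => w k x * u j x) (wm μ fun x => Real.exp (φ x)) := by
        obtain ⟨B, hB⟩ := hwbdd k
        exact (hu2.integrable one_le_two).bdd_mul (c := B) (hwcont k).aestronglyMeasurable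
          (Eventually.of_forall hB)
      have h2 : ∫ x, f k x * u j x ∂(wm μ fun x => Real.exp (φ x)) =
          (∫ x, (Real.exp (-φ x) * h k x) * u j x ∂(wm μ fun x => Real.exp (φ x))) -
            Λ * ∫ x, w k x * u j x ∂(wm μ fun x => Real.exp (φ x)) := by
        rw [← integral_const_mul, ← integral_sub hi1 (hi2.const_mul _)]
        congr 1
        funext x
        simp only [hf]
        ring
      show (lam j - Λ) * (∫ x, w k x * u j x ∂(wm μ fun x => Real.exp (φ x))) =
        ∫ x, f k x * u j x ∂(wm μ fun x => Real.exp (φ x))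
      rw [h2, ← h1]
      ring)
    (by
      calc ∑ k, ∫ x, f k x * f k x ∂(wm μ fun x => Real.exp (φ x)) ≤
          ∑ _k : Fin N, θ ^ l / c ^ 2 := Finset.sum_le_sum fun k _ => herr k
        _ = N * (θ ^ l / c ^ 2) := by simp
        _ ≤ (2 * l) * (θ ^ l / c ^ 2) := by
            apply mul_le_mul_of_nonneg_right _ (by positivity)
            exact_mod_cast hN2
        _ = 2 / c ^ 2 * ((l : ℝ) * θ ^ l) := by ring
        _ < δ ^ 2 := hsmall)
  refine ⟨J, ?_, fun j hj => ?_⟩
  · rw [hJ1]; exact hN1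
  · exact hJ2 j hj

end

end Pool.Agent.L7h70.SB
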