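import Pool.Agent.L7h70.SB.Stm0

/-! Project SB: `PL` from `ONE` and `POL`. -/

set_option autoImplicit false

open Set Filter Topology MeasureTheory
open scoped Real ContDiff

noncomputable section

namespace Pool.Agent.L7h70.SB

theorem s_PL (hO : S_ONE) (hP : S_POL) : S_PL := by
  intro η hη
  obtain ⟨γ, θ, hγ, hγ1, hθ, hθ1, L, hL⟩ := hO η hη
  obtain ⟨hP1, hP2⟩ := hP η hη
  refine ⟨γ, θ, hγ, hθ, hθ1, max (max L 1) (⌈1 / (1 - γ)⌉₊), fun l hl => ?_⟩
  have hlL : L ≤ l := le_trans (le_trans (le_max_left _ _) (le_max_left _ _)) hl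
  have hl1 : 1 ≤ l := le_trans (le_trans (le_max_right _ _) (le_max_left _ _)) hl
  have hl2 : 1 / (1 - γ) ≤ l := by
    have h1 : (⌈1 / (1 - γ)⌉₊ : ℝ) ≤ l := by exact_mod_cast le_trans (le_max_right _ _) hl
    exact le_trans (Nat.le_ceil _) h1
  have hγ' : 0 < 1 - γ := by linarith
  have hl3 : 1 ≤ (1 - γ) * l := by
    rw [div_le_iff₀ hγ'] at hl2
    linarith
  have hl0 : (0 : ℝ) < l := by exact_mod_cast hl1
  set N := ⌊γ * l⌋₊ + 1 with hN
  have hNl : ⌊γ * l⌋₊ ≤ l := by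
    have : (⌊γ * l⌋₊ : ℝ) ≤ l := by
      have h1 := Nat.floor_le (show 0 ≤ γ * (l : ℝ) by positivity)
      nlinarith
    exact_mod_cast this
  have hk : ∀ k : Fin N, (k : ℕ) ≤ l ∧ (1 - γ) * l ≤ ((l - (k : ℕ) : ℕ) : ℝ) := by
    intro k
    have h1 : (k : ℕ) ≤ ⌊γ * l⌋₊ := by have := k.2; omega
    have h2 : (k : ℕ) ≤ l := h1.trans hNl
    refine ⟨h2, ?_⟩
    rw [Nat.cast_sub h2]
    have h3 : ((k : ℕ) : ℝ) ≤ γ * l := by
      have h4 : ((k : ℕ) : ℝ) ≤ (⌊γ * l⌋₊ : ℝ) := by exact_mod_cast h1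
      exact h4.trans (Nat.floor_le (by positivity))
    linarith
  choose F hF1 hF2 hF3 hF4 using fun k : Fin N => hL l hlL (l - (k : ℕ)) (hk k).2 (Nat.sub_le _ _)
  have hm1 : ∀ k : Fin N, 1 ≤ l - (k : ℕ) := by
    intro k
    have h1 : (1 : ℝ) ≤ ((l - (k : ℕ) : ℕ) : ℝ) := hl3.trans (hk k).2
    exact_mod_cast h1
  set S : Fin N → ℝ := fun k => ∫ t, F k t ^ 2 / Real.cosh t ^ 2 with hS
  have hSpos : ∀ k, 0 < S k := fun k => hF3 k
  set a : Fin N → ℝ := fun k => (Real.sqrt (π * S k))⁻¹ with ha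
  have ha2 : ∀ k, a k ^ 2 * (π * S k) = 1 := by
    intro k
    have h1 : 0 < π * S k := mul_pos Real.pi_pos (hSpos k)
    simp only [ha, inv_pow, Real.sq_sqrt h1.le]
    exact inv_mul_cancel₀ h1.ne'
  set G : Fin N → ℝ → ℝ := fun k t => a k * F k t with hG
  have hG1 : ∀ k, ContDiff ℝ ∞ (G k) := fun k => contDiff_const.mul (hF1 k)
  have hG2 : ∀ k, tsupport (G k) ⊆ Ioo (-η) η := fun k =>
    (tsupport_mul_subset_right).trans (hF2 k)
  have hG3 : ∀ k t, deriv (deriv (G k)) t = a k * deriv (deriv (F k)) t := by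
    intro k t
    have h1 : deriv (G k) = fun t => a k * deriv (F k) t := by
      funext t
      exact deriv_const_mul _ ((hF1 k).differentiable (by simp)).differentiableAt
    rw [h1]
    apply deriv_const_mul
    have h2 : ContDiff ℝ ∞ (deriv (F k)) := ((contDiff_infty_iff_deriv).1 (hF1 k)).2
    exact (h2.differentiable (by simp)).differentiableAt
  refine ⟨N, fun k => vf (G k) (l - (k : ℕ)), ?_, ?_, ?_, ?_, ?_⟩
  · rw [hN]
    push_cast
    exact (Nat.lt_floor_add_one _).le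
  · rw [hN]; omega
  · intro k
    obtain ⟨h1, h2, -⟩ := hP1 (G k) _ (hm1 k) (hG1 k) (hG2 k)
    exact ⟨h1, h2⟩
  · intro k k'
    rw [hP2 (G k) (G k') _ _ (hm1 k) (hm1 k') (hG1 k).continuous (hG1 k').continuous (hG2 k) (hG2 k')]
    by_cases hkk : k = k'
    · subst hkk
      rw [if_pos rfl, if_pos rfl]
      have h1 : ∫ t, G k t * G k t / Real.cosh t ^ 2 = a k ^ 2 * S k := by
        rw [hS, ← integral_const_mul]
        congr 1
        funext t
        simp only [hG]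
        ring
      rw [h1]
      have := ha2 k
      linarith
    · rw [if_neg, if_neg hkk]
      intro h
      apply hkk
      have h1 := (hk k).1
      have h2 := (hk k').1
      apply Fin.ext
      omega
  · intro k
    obtain ⟨-, -, h3⟩ := hP1 (G k) _ (hm1 k) (hG1 k) (hG2 k)
    have h4 := h3 ((l : ℝ) * (l + 1))
    rw [h4]
    have h5 : ∫ t, (deriv (deriv (G k)) t - (((l - (k : ℕ) : ℕ) : ℝ) ^ 2 - (l : ℝ) * (l + 1) / Real.cosh t ^ 2) *
        G k t) ^ 2 * Real.cosh t ^ 2 = a k ^ 2 * ∫ t, (deriv (deriv (F k)) t -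
        (((l - (k : ℕ) : ℕ) : ℝ) ^ 2 - (l : ℝ) * (l + 1) / Real.cosh t ^ 2) * F k t) ^ 2 * Real.cosh t ^ 2 := by
      rw [← integral_const_mul]
      congr 1
      funext t
      rw [hG3]
      simp only [hG]
      ring
    rw [h5]
    have h6 := hF4 k
    calc π * (a k ^ 2 * _) ≤ π * (a k ^ 2 * (θ ^ l * S k)) := by
          apply mul_le_mul_of_nonneg_left _ Real.pi_pos.le
          exact mul_le_mul_of_nonneg_left h6 (sq_nonneg _)
      _ = (a k ^ 2 * (π * S k)) * θ ^ l := by ring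
      _ = θ ^ l := by rw [ha2, one_mul]

end Pool.Agent.L7h70.SB
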