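import Mathlib

/-!
# Project SB (round bands): statements, part one (one variable, plane, sequences)

A closed surface which contains a band around a great circle of a round sphere has many clusters of
eigenvalues: for all large `ℓ` at least `γ ℓ` eigenvalues are within `δ` of `ℓ (ℓ + 1) / c`.
-/

set_option autoImplicit false

open Set Filter Topology MeasureTheory Polynomial
open scoped Real ContDiff

noncomputable section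

namespace Pool.Agent.L7h70.SB

/-! ### One variable -/

/-- `LEG` (polynomials). Proof: `Q = (d/dx)^(ℓ+m) (x² - 1)^ℓ`. With `u_k = (d/dx)^k (x² - 1)^ℓ` one has
`(x² - 1) u_1 = 2 ℓ x u_0`, and by induction on `k` (differentiate)
`(x² - 1) u_(k+2) + 2 (k + 1 - ℓ) x u_(k+1) + (k + 1) (k - 2 ℓ) u_k = 0`; take `k = ℓ + m`. `Q ≠ 0` since
`(x² - 1)^ℓ` is monic of degree `2 ℓ` and `ℓ + m ≤ 2 ℓ`. -/
def S_LEG : Prop :=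
  ∀ l m : ℕ, m ≤ l → ∃ Q : Polynomial ℝ, Q ≠ 0 ∧
    (1 - X ^ 2) * derivative (derivative Q) - C (2 * ((m : ℝ) + 1)) * X * derivative Q +
      C ((l : ℝ) * (l + 1) - m * (m + 1)) * Q = 0

/-- `ODE`. Proof: `f t = (cosh t)⁻¹ ^ m * Q (tanh t)` with `Q` from `LEG`. -/
def S_ODE : Prop :=
  ∀ l m : ℕ, 1 ≤ m → m ≤ l → ∃ f : ℝ → ℝ, ContDiff ℝ ∞ f ∧ (∃ B, ∀ t, |f t| ≤ B) ∧
    (∀ a b : ℝ, a < b → ∃ t ∈ Ioo a b, f t ≠ 0) ∧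
    ∀ t, deriv (deriv f) t = ((m : ℝ) ^ 2 - l * (l + 1) / Real.cosh t ^ 2) * f t

/-- `DEC` (decay). Proof: `q = - f f'` satisfies `q' = - (f'² + V f²) ≤ - 2 K |q|` on `[a, ∞)`. If `q` is
negative at a point, then `f² → ∞`, a contradiction; hence `0 ≤ q` and `q (t) exp (2 K t)` is
nonincreasing. For `t ∈ [a, a + h]`: `h q (a + 2 h) ≤ h q (t + h) ≤ ∫_t^(t+h) q ≤ f(t)² / 2`, and the mean
over `t` gives `q (a + 2 h) ≤ (2 h²)⁻¹ ∫_a^(a+h) f²`. Finally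
`∫_(a+3h)^b (f'² + V f²) = q (a + 3 h) - q (b) ≤ exp (- 2 K h) q (a + 2 h)`. -/
def S_DEC : Prop :=
  ∀ (f V : ℝ → ℝ) (a h K : ℝ), 0 < h → 0 < K → ContDiff ℝ ∞ f → (∃ B, ∀ t, |f t| ≤ B) →
    (∀ t, a ≤ t → deriv (deriv f) t = V t * f t ∧ K ^ 2 ≤ V t) →
    ∀ b, a + 3 * h ≤ b → ∫ t in (a + 3 * h)..b, (deriv f t ^ 2 + K ^ 2 * f t ^ 2) ≤
      Real.exp (-2 * K * h) / (2 * h ^ 2) * ∫ t in a..(a + h), f t ^ 2

/-- `ONE` (the radial functions). Proof (`ODE`, `DEC`): `F = χ f` with a smooth even cutoff `χ`, `0 ≤ χ ≤ 1`,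
`χ = 1` on `|t| ≤ η / 2`, supported in `|t| ≤ 3 η / 4`; `F'' - (m² - ℓ (ℓ + 1) / cosh²) F = χ'' f + 2 χ' f'`
lives on `η / 2 ≤ |t| ≤ 3 η / 4`. With `a = h = η / 8`: for `|t| ≥ η / 8` and `γ` small, `ℓ` large,
`m² - ℓ (ℓ + 1) / cosh² t ≥ (κ ℓ)²`. For negative `t` use `t ↦ f (-t)`. -/
def S_ONE : Prop :=
  ∀ η : ℝ, 0 < η → ∃ γ θ : ℝ, 0 < γ ∧ γ < 1 ∧ 0 < θ ∧ θ < 1 ∧ ∃ L : ℕ, ∀ l : ℕ, L ≤ l →
    ∀ m : ℕ, (1 - γ) * l ≤ m → m ≤ l → ∃ F : ℝ → ℝ, ContDiff ℝ ∞ F ∧ tsupport F ⊆ Ioo (-η) η ∧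
      0 < ∫ t, F t ^ 2 / Real.cosh t ^ 2 ∧
      ∫ t, (deriv (deriv F) t - ((m : ℝ) ^ 2 - l * (l + 1) / Real.cosh t ^ 2) * F t) ^ 2 *
        Real.cosh t ^ 2 ≤ θ ^ l * ∫ t, F t ^ 2 / Real.cosh t ^ 2

/-! ### The plane -/

/-- the Laplacian of the plane -/
def lap (W : ℂ → ℝ) (z : ℂ) : ℝ :=
  fderiv ℝ (fun y => fderiv ℝ W y 1) z 1 + fderiv ℝ (fun y => fderiv ℝ W y Complex.I) z Complex.I

/-- the conformal factor of the round sphere -/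
def rho (z : ℂ) : ℝ := (2 / (1 + ‖z‖ ^ 2)) ^ 2

/-- the function `F (t) cos (m θ)`, `z = exp (t + i θ)` -/
def vf (F : ℝ → ℝ) (m : ℕ) (z : ℂ) : ℝ := F (Real.log ‖z‖) * (‖z‖⁻¹ ^ m * (z ^ m).re)

/-- `POL` (polar coordinates). Proof: `z = exp (t + i θ)`, `dz = |z|² dt dθ`,
`lap = |z|⁻² (∂_t² + ∂_θ²)`, `rho z = |z|⁻² / cosh² t`; near `0` the function `vf F m` vanishes
(`m ≥ 1`). For the Laplacian it may be easier to use `vf F m z = G (log |z|) h z` with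
`G t = F t exp (- m t)`, `h z = Re z^m` harmonic, `∇h · z = m h`:
`lap (G (log |z|) h) = |z|⁻² (G'' + 2 m G') h`. -/
def S_POL : Prop :=
  ∀ η : ℝ, 0 < η →
    (∀ (F : ℝ → ℝ) (m : ℕ), 1 ≤ m → ContDiff ℝ ∞ F → tsupport F ⊆ Ioo (-η) η →
      ContDiff ℝ ∞ (vf F m) ∧
      tsupport (vf F m) ⊆ {z | Real.exp (-η) < ‖z‖ ∧ ‖z‖ < Real.exp η} ∧
      ∀ lam : ℝ, ∫ z, (lap (vf F m) z + lam * (rho z * vf F m z)) ^ 2 / rho z =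
        π * ∫ t, (deriv (deriv F) t - ((m : ℝ) ^ 2 - lam / Real.cosh t ^ 2) * F t) ^ 2 *
          Real.cosh t ^ 2) ∧
    ∀ (F G : ℝ → ℝ) (m n : ℕ), 1 ≤ m → 1 ≤ n → Continuous F → Continuous G →
      tsupport F ⊆ Ioo (-η) η → tsupport G ⊆ Ioo (-η) η →
      ∫ z, rho z * (vf F m z * vf G n z) =
        if m = n then π * ∫ t, F t * G t / Real.cosh t ^ 2 else 0

/-- `PL` (the quasimodes on the sphere). From `ONE` and `POL`. -/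
def S_PL : Prop :=
  ∀ η : ℝ, 0 < η → ∃ γ θ : ℝ, 0 < γ ∧ 0 < θ ∧ θ < 1 ∧ ∃ L : ℕ, ∀ l : ℕ, L ≤ l →
    ∃ (N : ℕ) (V : Fin N → ℂ → ℝ), γ * l ≤ N ∧ N ≤ 2 * l ∧
      (∀ k, ContDiff ℝ ∞ (V k) ∧ tsupport (V k) ⊆ {z | Real.exp (-η) < ‖z‖ ∧ ‖z‖ < Real.exp η}) ∧
      (∀ k k', ∫ z, rho z * (V k z * V k' z) = if k = k' then 1 else 0) ∧
      ∀ k, ∫ z, (lap (V k) z + l * (l + 1) * (rho z * V k z)) ^ 2 / rho z ≤ θ ^ l

/-! ### Spectral theory -/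

/-- `SPEC` (quasimodes and clusters). Proof: if fewer than `N` indices satisfy `|lam j - E| ≤ δ`, there is a
unit vector `a ∈ ℝ^N` with `∑ k, a k * c k j = 0` for these `j`; then
`1 = ∑' j, (∑ k, a k * c k j)² ≤ δ⁻² ∑' j, (∑ k, a k * d k j)² ≤ δ⁻² ∑ k, D k < 1`. -/
def S_SPEC : Prop :=
  ∀ (N : ℕ) (lam : ℕ → ℝ) (E δ : ℝ) (c d : Fin N → ℕ → ℝ) (D : Fin N → ℝ), 0 < δ →
    (∀ k k', HasSum (fun j => c k j * c k' j) (if k = k' then 1 else 0)) →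
    (∀ k, HasSum (fun j => d k j ^ 2) (D k)) → (∀ k j, (lam j - E) * c k j = d k j) →
    ∑ k, D k < δ ^ 2 → ∃ J : Finset ℕ, J.card = N ∧ ∀ j ∈ J, |lam j - E| ≤ δ

/-! ### Counting -/

/-- clusters: for all large `ℓ` at least `γ ℓ` terms of the sequence are within `δ` of `κ ℓ (ℓ + 1)` -/
def Clusters (κ : ℝ) (lam : ℕ → ℝ) : Prop :=
  ∀ δ : ℝ, 0 < δ → ∃ γ : ℝ, 0 < γ ∧ ∃ L : ℕ, ∀ l : ℕ, L ≤ l → ∃ J : Finset ℕ,
    γ * l ≤ J.card ∧ ∀ j ∈ J, |lam j - κ * (l * (l + 1))| ≤ δ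

/-- close tuples of levels below `T` -/
def Tup (n : ℕ) (s T : ℝ) (x : ℕ → ℝ) (A : Finset (Fin (n + 2) → ℕ)) : Prop :=
  ∀ σ ∈ A, Function.Injective σ ∧ (∀ i, x (σ i) < T) ∧ ∀ i j, |x (σ i) - x (σ j)| < s

/-- `CNT` (counting). Proof: `δ = min (s / 4) κ`-like; clusters of different `ℓ` are disjoint, the tuples of
the clusters `ℓ ∈ [b √T / 2, b √T]` are below `T` for small `b`, every cluster contains at least
`(γ ℓ / 2)^(n+2)` injective tuples. -/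
def S_CNT : Prop :=
  ∀ (x : ℕ → ℝ) (κ : ℝ), 0 < κ → Clusters κ x → ∀ (n : ℕ) (s : ℝ), 0 < s →
    ∃ c : ℝ, 0 < c ∧ ∀ᶠ T : ℝ in atTop, ∃ A : Finset (Fin (n + 2) → ℕ), Tup n s T x A ∧
      c * T ^ (((n : ℝ) + 3) / 2) ≤ A.card

end Pool.Agent.L7h70.SB
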