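import Pool.Agent.N250.SP.Surf
import Pool.Agent.L7h70.SB.Stm0

/-!
# Project SB (round bands): statements, part two (surfaces)
-/

set_option autoImplicit false

open Set Filter Topology MeasureTheory
open scoped Real ContDiff
open Pool.Agent.Y262.QE Pool.Agent.Y264.QR

noncomputable section

namespace Pool.Agent.L7h70.SB

/-- `WEQ` (weak equations). `wm μ (exp φ)` is the area of the metric `exp φ · g`. Proof: the first part is
Parseval's formula for the orthonormal basis `u j` of `L²`. For the second part use `IsEig.ex` for `u j`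
with the test function `G = w`: with `StConf` the Dirichlet integrals of `exp φ · g` and `g` agree
(`(D.conf w).gr = (√w)⁻¹ • D.gr`, density `w`), so `∫ ⟨gr F_k, gr w⟩ dμ = ∫ h F_k dμ → ∫ h u_j dμ`. -/
def S_WEQ : Prop :=
  ∀ (M : Type) [MetricSpace M] [CompactSpace M] [MeasurableSpace M] [BorelSpace M] (μ : Measure M)
    (D : Data M), D.IsSurf μ → ∀ (φ : C(M, ℝ)) (u : ℕ → M → ℝ) (lam : ℕ → ℝ),
    EigBasis (D.conf fun x => Real.exp (φ x)) (wm μ fun x => Real.exp (φ x)) u lam →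
    (∀ v w : M → ℝ, MemLp v 2 (wm μ fun x => Real.exp (φ x)) →
      MemLp w 2 (wm μ fun x => Real.exp (φ x)) →
      HasSum (fun j => (∫ x, v x * u j x ∂(wm μ fun x => Real.exp (φ x))) *
        ∫ x, w x * u j x ∂(wm μ fun x => Real.exp (φ x)))
        (∫ x, v x * w x ∂(wm μ fun x => Real.exp (φ x)))) ∧
    ∀ w h : M → ℝ, D.C1 w → Measurable h → (∃ B, ∀ x, |h x| ≤ B) →
      (∀ G, D.C1 G → ∫ x, inner ℝ (D.gr w x) (D.gr G x) ∂μ = ∫ x, h x * G x ∂μ) →
      ∀ j, lam j * ∫ x, w x * u j x ∂(wm μ fun x => Real.exp (φ x)) =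
        ∫ x, (Real.exp (-φ x) * h x) * u j x ∂(wm μ fun x => Real.exp (φ x))

/-- `TR` (transplantation). A function `W` of the plane with compact support in a chart in which the metric is
isothermal on the support of `W`: the function `w = W ∘ φ_i` (zero outside of the chart) has the Laplacian
`- h`, `h = - lap W / |det A|`. Proof: `C1` as in `Pt.lift` of QR or `StCyf` of QE; integration in the
chart (`tInt`); for an isothermal `A` one has `⟨grd A P, grd A Q⟩ |det A| = P 1 Q 1 + P I Q I`; and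
`∫ (∂W ∂g + ...) = - ∫ lap W g` (integration by parts with compact support; multiply `g = G ∘ ψ_i` by a
smooth bump function which is one near `tsupport W`). -/
def S_TR : Prop :=
  ∀ (M : Type) [MetricSpace M] [CompactSpace M] [MeasurableSpace M] [BorelSpace M] (μ : Measure M)
    (D : Data M), D.IsSurf μ → ∀ (i : Fin D.N) (W : ℂ → ℝ), ContDiff ℝ ∞ W → HasCompactSupport W →
    tsupport W ⊆ D.T i → (∀ z ∈ tsupport W, ∀ v, ‖D.A i z v‖ = ‖D.A i z 1‖ * ‖v‖) →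
    ∃ w h : M → ℝ, D.C1 w ∧ Measurable h ∧ (∃ B, ∀ x, |h x| ≤ B) ∧
      (∀ z ∈ D.T i, w (D.ψ i z) = W z ∧ h (D.ψ i z) * ‖D.A i z 1‖ ^ 2 = -lap W z) ∧
      (∀ x, x ∉ D.U i → w x = 0 ∧ h x = 0) ∧
      ∀ G, D.C1 G → ∫ x, inner ℝ (D.gr w x) (D.gr G x) ∂μ = ∫ x, h x * G x ∂μ

/-! ### Round bands -/

/-- The metric `exp φ · g` contains a band around a great circle of a round sphere: in the chart `i` it is
equal to `c` times the metric of the unit sphere on the annulus `R exp (-η) ≤ |z - z₀| ≤ R exp η`, where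
the sphere without the poles is parametrized by stereographic coordinates for which `|z - z₀| = R` is
the equator. -/
def HasBand {M : Type} [TopologicalSpace M] (D : Data M) (φ : C(M, ℝ)) : Prop :=
  ∃ (i : Fin D.N) (z₀ : ℂ) (R η c : ℝ), 0 < R ∧ 0 < η ∧ 0 < c ∧
    ∀ z : ℂ, R * Real.exp (-η) ≤ ‖z - z₀‖ → ‖z - z₀‖ ≤ R * Real.exp η → z ∈ D.T i ∧
      ∀ v : ℂ, Real.exp (φ (D.ψ i z)) * ‖D.A i z v‖ ^ 2 =
        c * (2 * R / (R ^ 2 + ‖z - z₀‖ ^ 2)) ^ 2 * ‖v‖ ^ 2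

/-- `CL` (the clusters of a surface with a round band). From `PL`, `SPEC`, `WEQ`, `TR`. -/
def S_CL : Prop :=
  ∀ (M : Type) [MetricSpace M] [CompactSpace M] [MeasurableSpace M] [BorelSpace M] (μ : Measure M)
    (D : Data M), D.IsSurf μ → ∀ (φ : C(M, ℝ)), HasBand D φ → ∃ κ : ℝ, 0 < κ ∧
    ∀ (u : ℕ → M → ℝ) (lam : ℕ → ℝ),
    EigBasis (D.conf fun x => Real.exp (φ x)) (wm μ fun x => Real.exp (φ x)) u lam → Clusters κ lam

/-- an isothermal disc somewhere in a chart -/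
def HasIso {M : Type} (D : Data M) : Prop :=
  ∃ (i : Fin D.N) (z₀ : ℂ) (r : ℝ), 0 < r ∧ ∀ z ∈ Metric.ball z₀ r, z ∈ D.T i ∧
    ∀ v, ‖D.A i z v‖ = ‖D.A i z 1‖ * ‖v‖

/-- `DEN` (round bands are dense). Proof: let `h z = exp (φ (ψ_i z)) ‖A_i z 1‖²` on the disc, positive and
continuous. For `c = h (z₀) R²` the function `k z = c (2 R / (R² + |z - z₀|²))²` satisfies
`|log k - log h (z₀)| < ε / 4` on `|log (|z - z₀| / R)| ≤ 2 η` if `η` is small, and
`|log h - log h (z₀)| < ε / 4` on `|z - z₀| ≤ 2 R` if `R` is small. Put `ψ = φ + g ∘ φ_i` with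
`g = χ (log k - log h)`, `χ` a smooth cutoff, `0 ≤ χ ≤ 1`, `χ = 1` for `|log (|z - z₀| / R)| ≤ η`, `= 0`
for `≥ 3 η / 2`. -/
def S_DEN : Prop :=
  ∀ (M : Type) [MetricSpace M] [CompactSpace M] [MeasurableSpace M] [BorelSpace M] (μ : Measure M)
    (D : Data M), D.IsSurf μ → ∀ (i : Fin D.N) (z₀ : ℂ) (r : ℝ), 0 < r →
    (∀ z ∈ Metric.ball z₀ r, z ∈ D.T i ∧ ∀ v, ‖D.A i z v‖ = ‖D.A i z 1‖ * ‖v‖) →
    ∀ (φ : C(M, ℝ)) (ε : ℝ), 0 < ε → ∃ (ψ : C(M, ℝ)) (g : ℂ → ℝ), HasBand D ψ ∧ dist ψ φ < ε ∧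
      tsupport g ⊆ Metric.ball z₀ r ∧ (∀ x, x ∉ D.U i → ψ x = φ x) ∧
      (∀ z ∈ D.T i, ψ (D.ψ i z) = φ (D.ψ i z) + g z) ∧
      (ContDiffOn ℝ ∞ (fun z => Real.exp (φ (D.ψ i z)) * ‖D.A i z 1‖ ^ 2) (Metric.ball z₀ r) →
        ContDiff ℝ ∞ g)

end Pool.Agent.L7h70.SB
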