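import Pool.Agent.L7h70.SB.Stm

/-!
# Project SB (round bands): statements, part three (bands near a closed geodesic)
-/

set_option autoImplicit false

open Set Filter Topology MeasureTheory
open scoped Real ContDiff
open Pool.Agent.Y262.QE Pool.Agent.Y264.QR

noncomputable section

namespace Pool.Agent.L7h70.SB

/-- The chart `i` contains a conformal collar: on the annulus `exp (-η) ≤ |z| ≤ exp η` the metric is
`(exp (w z) / |z|)² |dz|²` with `w` smooth (with the coordinate `log z` on the cylinder it is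
`exp (2 w) |d log z|²`), and the unit circle is a closed geodesic which is parametrized with constant
speed: `w = log a` and `dw = 0` on the unit circle. The hyperbolic collar around a closed geodesic of
length `2 π a` is the case `w z = log (a / cos (a log |z|))`. -/
structure IsCollar {M : Type} [TopologicalSpace M] (D : Data M) (i : Fin D.N) (a η : ℝ)
    (w : ℂ → ℝ) : Prop where
  posa : 0 < a
  posη : 0 < η
  ann : ∀ z : ℂ, Real.exp (-η) ≤ ‖z‖ → ‖z‖ ≤ Real.exp η → z ∈ D.T i ∧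
    ∀ v, ‖D.A i z v‖ = Real.exp (w z) / ‖z‖ * ‖v‖
  smooth : ContDiffOn ℝ ∞ w {z | Real.exp (-η) < ‖z‖ ∧ ‖z‖ < Real.exp η}
  circ : ∀ z : ℂ, ‖z‖ = 1 → w z = Real.log a ∧ fderiv ℝ w z = 0

/-- `COP` (plane). A smooth function near the unit circle which vanishes to first order on it can be cut off in
the space `C^(1,α)`, `α < 1`. Proof: let `K` be the annulus `|log |z|| ≤ η / 2`. With `t = log |z|`:
`|u| ≤ B t²`, `‖du‖ ≤ B |t|`, `‖D²u‖ ≤ B` on `K` (Taylor along the radii: `s ↦ u (s z / |z|)`).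
For `0 < κ ≤ 1` small put `g = χ (t / κ) u`, `χ` smooth, `χ = 1` on `|t| ≤ 1`, `χ = 0` for
`|t| ≥ 2`. Then `|g| ≤ B' κ²`, `‖dg‖ ≤ B' κ`, `‖D²g‖ ≤ B'` everywhere, hence
`‖dg z - dg z'‖ ≤ min (B' |z - z'|) (2 B' κ) ≤ 2 B' κ^(1-α) |z - z'|^α`. -/
def S_COP : Prop :=
  ∀ (η : ℝ) (u : ℂ → ℝ), 0 < η → ContDiffOn ℝ ∞ u {z | Real.exp (-η) < ‖z‖ ∧ ‖z‖ < Real.exp η} →
    (∀ z : ℂ, ‖z‖ = 1 → u z = 0 ∧ fderiv ℝ u z = 0) → ∀ α ε : ℝ, 0 < α → α < 1 → 0 < ε →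
    ∃ (g : ℂ → ℝ) (κ : ℝ), 0 < κ ∧ κ < η ∧ ContDiff ℝ ∞ g ∧
      tsupport g ⊆ {z | Real.exp (-η) < ‖z‖ ∧ ‖z‖ < Real.exp η} ∧
      (∀ z : ℂ, Real.exp (-κ) ≤ ‖z‖ → ‖z‖ ≤ Real.exp κ → g z = u z) ∧
      (∀ z, |g z| ≤ ε) ∧ (∀ z, ‖fderiv ℝ g z‖ ≤ ε) ∧
      ∀ z z', ‖fderiv ℝ g z - fderiv ℝ g z'‖ ≤ ε * ‖z - z'‖ ^ α

/-- `COL` (bands near a closed geodesic). From `COP` with `u z = 2 (log (a / cosh (log |z|)) - w z)`: on
`|log |z|| ≤ κ` the metric `exp g · (exp w / |z|)² |dz|²` is `(a / (|z| cosh (log |z|)))² |dz|² =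
a² (2 / (1 + |z|²))² |dz|²`; the function `g ∘ φ_i` is extended by zero to the surface. -/
def S_COL : Prop :=
  ∀ (M : Type) [MetricSpace M] [CompactSpace M] [MeasurableSpace M] [BorelSpace M] (μ : Measure M)
    (D : Data M), D.IsSurf μ → ∀ (i : Fin D.N) (a η : ℝ) (w : ℂ → ℝ), IsCollar D i a η w →
    ∀ α ε : ℝ, 0 < α → α < 1 → 0 < ε → ∃ (ψ : C(M, ℝ)) (g : ℂ → ℝ), HasBand D ψ ∧
      (∀ x, x ∉ D.U i → ψ x = 0) ∧ (∀ z ∈ D.T i, ψ (D.ψ i z) = g z) ∧ ContDiff ℝ ∞ g ∧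
      tsupport g ⊆ {z | Real.exp (-η) < ‖z‖ ∧ ‖z‖ < Real.exp η} ∧
      (∀ z, |g z| ≤ ε) ∧ (∀ z, ‖fderiv ℝ g z‖ ≤ ε) ∧
      ∀ z z', ‖fderiv ℝ g z - fderiv ℝ g z'‖ ≤ ε * ‖z - z'‖ ^ α

end Pool.Agent.L7h70.SB
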