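import Pool.Agent.L7h56.SB.One
import Pool.Agent.L7h22.SB.Spec
import Pool.Agent.L7h22.SB.Cnt
import Pool.Agent.L7h22.SB.Pol
import Pool.Agent.L7h22.SB.Gap
import Pool.Agent.L7h46.SB.Den
import Pool.Agent.L7h95.SB.Weq
import Pool.Agent.L7h70.SB.Pl
import Pool.Agent.L7h70.SB.Cl
import Pool.Agent.L7h70.SB.Tr
import Pool.Agent.L7h70.SB.Bai2

/-!
# Project SB (round bands): assembly

The parts are by helper56 (polynomials, differential equation, decay, radial functions), helper22
(spectral lemma, counting, small gaps, polar coordinates), helper46 (density), helper95 (weak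
equations) and helper70 (quasimodes, clusters, transplantation, Baire category).
-/

set_option autoImplicit false

noncomputable section

namespace Pool.Agent.L7h70.SB

theorem t_CL : S_CL :=
  s_CL (s_PL Pool.Agent.L7h56.SB.s_ONE Pool.Agent.L7h22.SB.s_POL) Pool.Agent.L7h22.SB.s_SPEC
    Pool.Agent.L7h95.SB.s_WEQ s_TR

theorem t_CNT : S_CNT := Pool.Agent.L7h22.SB.s_CNT

theorem t_GAP : S_GAP := Pool.Agent.L7h22.SB.s_GAP

theorem t_DEN : S_DEN := Pool.Agent.L7h46.SB.s_DEN

end Pool.Agent.L7h70.SB
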